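import Pool.Agent.H762.TG.Torelli

/-!
The classification of the pairs of long graphs for which both embeddings exist.
-/

set_option autoImplicit false

namespace Pool.Agent.H762.TG

open Finset Matrix

/-- The orthogonal sum of the lattice of cuts of `G` and the lattice of flows of `G'` is embedded
in the standard lattice of the same rank. -/
def EmbedsLin {V E V' E' : Type} [Fintype E] [Fintype E'] [DecidableEq V']
    (G : Multigraph V E) (G' : Multigraph V' E') : Prop :=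
  ∃ φ : (G.cuts × G'.flows) →ₗ[ℤ]
      (Fin (Module.finrank ℤ G.cuts + Module.finrank ℤ G'.flows) → ℤ),
    ∀ a b, φ a ⬝ᵥ φ b =
      (a.1 : E → ℤ) ⬝ᵥ (b.1 : E → ℤ) + (a.2 : E' → ℤ) ⬝ᵥ (b.2 : E' → ℤ)

theorem embeds_iff {V E V' E' : Type} [Fintype E] [Fintype E'] [DecidableEq V']
    (G : Multigraph V E) (G' : Multigraph V' E') : Embeds G G' ↔ EmbedsLin G G' := by
  constructor
  · rintro ⟨φ, ψ, h1, h2, h3⟩
    let f : G.cuts →ₗ[ℤ] (Fin (Module.finrank ℤ G.cuts + Module.finrank ℤ G'.flows) → ℤ) :=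
      (AddMonoidHom.mk' (fun x : G.cuts => φ x) (fun x y => (h1 x x.2 y y.2).1)).toIntLinearMap
    let g : G'.flows →ₗ[ℤ] (Fin (Module.finrank ℤ G.cuts + Module.finrank ℤ G'.flows) → ℤ) :=
      (AddMonoidHom.mk' (fun x : G'.flows => ψ x) (fun x y => (h2 x x.2 y y.2).1)).toIntLinearMap
    refine ⟨f.coprod g, fun a b => ?_⟩
    rw [LinearMap.coprod_apply, LinearMap.coprod_apply]
    change (φ a.1 + ψ a.2) ⬝ᵥ (φ b.1 + ψ b.2) = _
    rw [add_dotProduct, dotProduct_add, dotProduct_add, (h1 a.1 a.1.2 b.1 b.1.2).2,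
      (h2 a.2 a.2.2 b.2 b.2.2).2, h3 a.1 a.1.2 b.2 b.2.2, dotProduct_comm (ψ a.2),
      h3 b.1 b.1.2 a.2 a.2.2]
    ring
  · rintro ⟨φ, h⟩
    classical
    refine ⟨fun x => if hx : x ∈ G.cuts then φ (⟨x, hx⟩, 0) else 0,
      fun x => if hx : x ∈ G'.flows then φ (0, ⟨x, hx⟩) else 0, ?_, ?_, ?_⟩
    · intro x hx y hy
      simp only [dif_pos hx, dif_pos hy, dif_pos (add_mem hx hy)]
      refine ⟨?_, ?_⟩
      · have h1 := map_add φ (⟨x, hx⟩, 0) (⟨y, hy⟩, 0)
        have h2 : ((⟨x, hx⟩, 0) + (⟨y, hy⟩, 0) : G.cuts × G'.flows) =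
            (⟨x + y, add_mem hx hy⟩, 0) := by
          ext1
          · rfl
          · simp
        rw [h2] at h1
        exact h1
      · have h1 := h (⟨x, hx⟩, 0) (⟨y, hy⟩, 0)
        have h2 : x ⬝ᵥ y + ((0 : G'.flows) : E' → ℤ) ⬝ᵥ ((0 : G'.flows) : E' → ℤ) = x ⬝ᵥ y := by
          simp
        exact h1.trans h2
    · intro x hx y hy
      simp only [dif_pos hx, dif_pos hy, dif_pos (add_mem hx hy)]
      refine ⟨?_, ?_⟩
      · have h1 := map_add φ (0, ⟨x, hx⟩) (0, ⟨y, hy⟩)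
        have h2 : ((0, ⟨x, hx⟩) + (0, ⟨y, hy⟩) : G.cuts × G'.flows) =
            (0, ⟨x + y, add_mem hx hy⟩) := by
          ext1
          · simp
          · rfl
        rw [h2] at h1
        exact h1
      · have h1 := h (0, ⟨x, hx⟩) (0, ⟨y, hy⟩)
        have h2 : ((0 : G.cuts) : E → ℤ) ⬝ᵥ ((0 : G.cuts) : E → ℤ) + x ⬝ᵥ y = x ⬝ᵥ y := by
          simp
        exact h1.trans h2
    · intro x hx y hy
      simp only [dif_pos hx, dif_pos hy]
      have h1 := h (⟨x, hx⟩, 0) (0, ⟨y, hy⟩)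
      have h2 : x ⬝ᵥ ((0 : G.cuts) : E → ℤ) + ((0 : G'.flows) : E' → ℤ) ⬝ᵥ y = 0 := by
        simp
      exact h1.trans h2

namespace Multigraph

variable {V E V' E' : Type} [Fintype V] [Fintype E] [DecidableEq V] [DecidableEq E]
  [Fintype V'] [Fintype E'] [DecidableEq V'] [DecidableEq E']

omit [DecidableEq E] in
theorem unit_mul_self (u : ℤˣ) : (u : ℤ) * (u : ℤ) = 1 := by
  rcases Int.units_eq_one_or u with h | h <;> rw [h] <;> rfl

/-- the embedding of 2-isomorphic graphs -/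
theorem embeds_of (G : Multigraph V E) (G' : Multigraph V' E') (σ : E ≃ E') (η : E → ℤˣ)
    (h : ∀ x : E' → ℤ, G'.IsFlow x ↔ G.IsFlow (fun e => η e * x (σ e))) : Embeds G G' := by
  rw [embeds_iff]
  let ψ : G'.flows ≃ₗ[ℤ] G.flows :=
    { toFun := fun x => ⟨fun e => η e * (x : E' → ℤ) (σ e), (h x).1 x.2⟩
      map_add' := fun x y => by
        apply Subtype.ext
        funext e
        change (η e : ℤ) * ((x : E' → ℤ) (σ e) + (y : E' → ℤ) (σ e)) =
          η e * (x : E' → ℤ) (σ e) + η e * (y : E' → ℤ) (σ e)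
        ring
      map_smul' := fun c x => by
        apply Subtype.ext
        funext e
        change (η e : ℤ) * (c * (x : E' → ℤ) (σ e)) = c * (η e * (x : E' → ℤ) (σ e))
        ring
      invFun := fun y => ⟨fun e => η (σ.symm e) * (y : E → ℤ) (σ.symm e), (h _).2 (by
        have h1 : (fun e => (η e : ℤ) * (η (σ.symm (σ e)) * (y : E → ℤ) (σ.symm (σ e)))) =
            (y : E → ℤ) := by
          funext e
          rw [σ.symm_apply_apply, ← mul_assoc, unit_mul_self, one_mul]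
        rw [h1]
        exact y.2)⟩
      left_inv := fun x => by
        apply Subtype.ext
        funext e
        change (η (σ.symm e) : ℤ) * (η (σ.symm e) * (x : E' → ℤ) (σ (σ.symm e))) = (x : E' → ℤ) e
        rw [σ.apply_symm_apply, ← mul_assoc, unit_mul_self, one_mul]
      right_inv := fun y => by
        apply Subtype.ext
        funext e
        change (η e : ℤ) * (η (σ.symm (σ e)) * (y : E → ℤ) (σ.symm (σ e))) = (y : E → ℤ) e
        rw [σ.symm_apply_apply, ← mul_assoc, unit_mul_self, one_mul] }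
  have hN : Fintype.card E =
      Module.finrank ℤ G.cuts + Module.finrank ℤ G'.flows := by
    rw [ψ.finrank_eq]
    exact G.finrank_add.symm
  let ε : E ≃ Fin (Module.finrank ℤ G.cuts + Module.finrank ℤ G'.flows) :=
    Fintype.equivFinOfCardEq hN
  let F : (G.cuts × G'.flows) →ₗ[ℤ] (E → ℤ) :=
    (G.cuts.subtype).coprod (G.flows.subtype ∘ₗ (ψ : G'.flows →ₗ[ℤ] G.flows))
  have hF : ∀ a, F a = (a.1 : E → ℤ) + (ψ a.2 : E → ℤ) := fun a => rfl
  let R : (E → ℤ) →ₗ[ℤ] (Fin (Module.finrank ℤ G.cuts + Module.finrank ℤ G'.flows) → ℤ) :=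
    { toFun := fun x i => x (ε.symm i)
      map_add' := fun _ _ => rfl
      map_smul' := fun _ _ => rfl }
  refine ⟨R ∘ₗ F, fun a b => ?_⟩
  have h1 : ∀ x y : E → ℤ, R x ⬝ᵥ R y = x ⬝ᵥ y := by
    intro x y
    exact ε.symm.sum_comp fun e => x e * y e
  have h2 : (ψ a.2 : E → ℤ) ⬝ᵥ (ψ b.2 : E → ℤ) = (a.2 : E' → ℤ) ⬝ᵥ (b.2 : E' → ℤ) := by
    simp only [dotProduct]
    rw [← σ.sum_comp]
    apply sum_congr rfl
    intro e _
    change (η e : ℤ) * (a.2 : E' → ℤ) (σ e) * (η e * (b.2 : E' → ℤ) (σ e)) = _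
    calc (η e : ℤ) * (a.2 : E' → ℤ) (σ e) * (η e * (b.2 : E' → ℤ) (σ e)) =
        ((η e : ℤ) * η e) * ((a.2 : E' → ℤ) (σ e) * (b.2 : E' → ℤ) (σ e)) := by ring
      _ = _ := by rw [unit_mul_self, one_mul]
  rw [LinearMap.comp_apply, LinearMap.comp_apply, h1, hF, hF, add_dotProduct, dotProduct_add,
    dotProduct_add, h2, G.cuts_dot_flows a.1.2 (ψ b.2).2, dotProduct_comm (ψ a.2 : E → ℤ),
    G.cuts_dot_flows b.1.2 (ψ a.2).2]
  ring

theorem main (G : Multigraph V E) (G' : Multigraph V' E') (hG : G.Long) (hG' : G'.Long) :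
    (Embeds G G' ∧ Embeds G' G) ↔ ∃ (σ : E ≃ E') (η : E → ℤˣ), ∀ x : E' → ℤ,
      G'.IsFlow x ↔ G.IsFlow (fun e => η e * x (σ e)) := by
  constructor
  · rw [embeds_iff, embeds_iff]
    rintro ⟨⟨φ, hφ⟩, ⟨φ', hφ'⟩⟩
    obtain ⟨sg, hs1, hsg⟩ := G.exists_sg hG
    obtain ⟨sg', hs1', hsg'⟩ := G'.exists_sg hG'
    have c1 := G.card_le hG hs1 hsg (φ ∘ₗ LinearMap.inl ℤ _ _) (by
      intro a b
      rw [LinearMap.comp_apply, LinearMap.comp_apply, hφ]
      simp)
    have c2 := G'.card_le hG' hs1' hsg' (φ' ∘ₗ LinearMap.inl ℤ _ _) (by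
      intro a b
      rw [LinearMap.comp_apply, LinearMap.comp_apply, hφ']
      simp)
    rw [Fintype.card_fin] at c1 c2
    have f1 := G.finrank_add
    have f2 := G'.finrank_add
    obtain ⟨ψ, hψ⟩ := G.exists_isometry G' hG (by rw [Fintype.card_fin]; omega) φ hφ
    obtain ⟨ψ', hψ'⟩ := G'.exists_isometry G hG' (by rw [Fintype.card_fin]; omega) φ' hφ'
    have hsurj : Function.Surjective ψ := by
      have h1 := surj_endo G.flows (ψ ∘ₗ ψ') (fun x y => by
        rw [LinearMap.comp_apply, LinearMap.comp_apply, hψ, hψ'])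
      intro y
      obtain ⟨x, hx⟩ := h1 y
      exact ⟨ψ' x, hx⟩
    obtain ⟨σ, η, h⟩ := torelli G G' (fun e => (hG.1 e).1) (fun e => (hG'.1 e).1) ψ hψ hsurj
    refine ⟨σ, η, fun x => ⟨fun hx => ?_, fun hx => ?_⟩⟩
    · have h1 : (fun e => (η e : ℤ) * x (σ e)) = (ψ ⟨x, hx⟩ : E → ℤ) := by
        funext e
        rw [h ⟨x, hx⟩ e]
      rw [h1]
      exact (ψ ⟨x, hx⟩).2
    · obtain ⟨y, hy⟩ := hsurj ⟨_, hx⟩
      have h1 : x = (y : E' → ℤ) := by
        funext e
        have h2 := h y (σ.symm e)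
        rw [hy] at h2
        change (η (σ.symm e) : ℤ) * x (σ (σ.symm e)) =
          η (σ.symm e) * (y : E' → ℤ) (σ (σ.symm e)) at h2
        rw [σ.apply_symm_apply] at h2
        have h3 : (η (σ.symm e) : ℤ) ≠ 0 := Units.ne_zero _
        exact mul_left_cancel₀ h3 h2
      rw [h1]
      exact y.2
  · rintro ⟨σ, η, h⟩
    refine ⟨embeds_of G G' σ η h, embeds_of G' G σ.symm (fun e => η (σ.symm e)) fun x => ?_⟩
    rw [h]
    have h1 : (fun e => (η e : ℤ) * (η (σ.symm (σ e)) * x (σ.symm (σ e)))) = x := by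
      funext e
      rw [σ.symm_apply_apply, ← mul_assoc, unit_mul_self, one_mul]
    rw [h1]

end Multigraph

end Pool.Agent.H762.TG
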