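import Pool.Agent.H762.TG.Basic

/-!
Conformal decomposition of flows and cuts.
-/

set_option autoImplicit false

namespace Pool.Agent.H762.TG

open Finset Matrix

/-- all values are `0` or `± 1` -/
def IsUnit' {E : Type} (d : E → ℤ) : Prop := ∀ f, d f = 0 ∨ d f = 1 ∨ d f = -1

theorem sign_cases (a : ℤ) (h : a ≠ 0) : (0 < a ∧ a.sign = 1) ∨ (a < 0 ∧ a.sign = -1) := by
  rcases lt_trichotomy a 0 with h1 | h1 | h1
  · right; exact ⟨h1, Int.sign_eq_neg_one_of_neg h1⟩
  · exact absurd h1 h
  · left; exact ⟨h1, Int.sign_eq_one_of_pos h1⟩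

namespace Multigraph

variable {V E : Type} [Fintype V] [Fintype E] [DecidableEq V] [DecidableEq E] (G : Multigraph V E)

/-- the head of an edge with respect to a flow -/
def hd (y : E → ℤ) (f : E) : V := if 0 < y f then G.tgt f else G.src f

/-- the tail of an edge with respect to a flow -/
def tl (y : E → ℤ) (f : E) : V := if 0 < y f then G.src f else G.tgt f

omit [Fintype V] in
theorem bd_sign (y : E → ℤ) (f : E) (hf : y f ≠ 0) (z : V) :
    G.bd (Pi.single f (y f).sign) z =
      (if z = G.hd y f then 1 else 0) - (if z = G.tl y f then 1 else 0) := by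
  rcases sign_cases _ hf with ⟨h1, h2⟩ | ⟨h1, h2⟩
  · rw [h2, bd_single, hd, tl, if_pos h1, if_pos h1]
  · have h3 : ¬ 0 < y f := not_lt.2 h1.le
    rw [h2, Pi.single_neg, bd_neg, Pi.neg_apply, bd_single, hd, tl, if_neg h3, if_neg h3]
    ring

/-- the vertices of `A` can be reached from `v₀` inside `A` -/
def Good (y : E → ℤ) (v₀ : V) (A : Finset V) : Prop :=
  v₀ ∈ A ∧ ∀ u ∈ A, ∃ d : E → ℤ,
    (∀ f, d f = 0 ∨ (y f ≠ 0 ∧ d f = (y f).sign ∧ G.hd y f ∈ A ∧ G.hd y f ≠ v₀)) ∧
    ∀ z, G.bd d z = (if z = u then 1 else 0) - (if z = v₀ then 1 else 0)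

omit [Fintype V] in
theorem good_insert (y : E → ℤ) (v₀ : V) (A : Finset V) (h : G.Good y v₀ A) (f : E)
    (hf : y f ≠ 0) (ht : G.tl y f ∈ A) (hh : G.hd y f ∉ A) :
    G.Good y v₀ (insert (G.hd y f) A) := by
  refine ⟨mem_insert_of_mem h.1, fun u hu => ?_⟩
  rcases mem_insert.1 hu with rfl | hu
  · obtain ⟨d, hd1, hd2⟩ := h.2 _ ht
    have hdf : d f = 0 := by
      rcases hd1 f with h1 | h1
      · exact h1
      · exact absurd h1.2.2.1 hh
    have hne : G.hd y f ≠ v₀ := fun e => hh (e ▸ h.1)
    refine ⟨d + Pi.single f (y f).sign, fun g => ?_, fun z => ?_⟩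
    · by_cases hg : g = f
      · subst hg
        right
        refine ⟨hf, ?_, mem_insert_self _ _, hne⟩
        rw [Pi.add_apply, hdf, Pi.single_eq_same, zero_add]
      · rw [Pi.add_apply, Pi.single_eq_of_ne hg, add_zero]
        rcases hd1 g with h1 | h1
        · left; exact h1
        · right; exact ⟨h1.1, h1.2.1, mem_insert_of_mem h1.2.2.1, h1.2.2.2⟩
    · rw [bd_add, Pi.add_apply, hd2, bd_sign _ _ _ hf]
      ring
  · obtain ⟨d, hd1, hd2⟩ := h.2 _ hu
    refine ⟨d, fun g => ?_, hd2⟩
    rcases hd1 g with h1 | h1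
    · left; exact h1
    · right; exact ⟨h1.1, h1.2.1, mem_insert_of_mem h1.2.2.1, h1.2.2.2⟩

/-- a flow contains a conformal unit flow through each edge of its support -/
theorem exists_conf {y : E → ℤ} (hy : G.IsFlow y) {e : E} (he : y e ≠ 0) :
    ∃ d, G.IsFlow d ∧ (∀ f, d f = 0 ∨ d f = (y f).sign) ∧ d e = (y e).sign := by
  classical
  set v₀ := G.hd y e with hv₀
  have h0 : G.Good y v₀ {v₀} := by
    refine ⟨mem_singleton_self _, fun u hu => ⟨0, fun f => Or.inl rfl, fun z => ?_⟩⟩
    rw [mem_singleton.1 hu]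
    simp [bd]
  obtain ⟨A, hA, hmax⟩ := exists_max_image (univ.filter fun A => G.Good y v₀ A) Finset.card
    ⟨{v₀}, mem_filter.2 ⟨mem_univ _, h0⟩⟩
  have hA' := (mem_filter.1 hA).2
  -- `A` is closed
  have hcl : ∀ f, y f ≠ 0 → G.tl y f ∈ A → G.hd y f ∈ A := by
    intro f hf ht
    by_contra hh
    have h1 := hmax _ (mem_filter.2 ⟨mem_univ _, G.good_insert y v₀ A hA' f hf ht hh⟩)
    rw [card_insert_of_notMem hh] at h1
    omega
  have hsum : G.cut (fun v => if v ∈ A then 1 else 0) ⬝ᵥ y = 0 :=
    G.cuts_dot_flows (G.mem_cuts.2 ⟨_, rfl⟩) hy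
  have hnn : ∀ f ∈ univ, 0 ≤ G.cut (fun v => if v ∈ A then 1 else 0) f * y f := by
    intro f _
    by_cases hf : y f = 0
    · rw [hf, mul_zero]
    · have h1 := hcl f hf
      rcases sign_cases _ hf with ⟨h2, -⟩ | ⟨h2, -⟩
      · rw [hd, tl, if_pos h2, if_pos h2] at h1
        simp only [cut]
        split_ifs with a b b
        · simp
        · nlinarith
        · exact absurd (h1 b) a
        · simp
      · have h3 : ¬ 0 < y f := not_lt.2 h2.le
        rw [hd, tl, if_neg h3, if_neg h3] at h1
        simp only [cut]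
        split_ifs with a b b
        · simp
        · exact absurd (h1 a) b
        · nlinarith
        · simp
  rw [dotProduct, sum_eq_zero_iff_of_nonneg hnn] at hsum
  have hte : G.tl y e ∈ A := by
    have h1 := hsum e (mem_univ e)
    have h2 : G.hd y e ∈ A := hA'.1
    by_contra h3
    rcases mul_eq_zero.1 h1 with h4 | h4
    · rcases sign_cases _ he with ⟨h5, -⟩ | ⟨h5, -⟩
      · rw [hd, if_pos h5] at h2
        rw [tl, if_pos h5] at h3
        simp only [cut, if_pos h2, if_neg h3] at h4
        omega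
      · have h6 : ¬ 0 < y e := not_lt.2 h5.le
        rw [hd, if_neg h6] at h2
        rw [tl, if_neg h6] at h3
        simp only [cut, if_pos h2, if_neg h3] at h4
        omega
    · exact he h4
  obtain ⟨d, hd1, hd2⟩ := hA'.2 _ hte
  have hde : d e = 0 := by
    rcases hd1 e with h1 | h1
    · exact h1
    · exact absurd rfl h1.2.2.2
  refine ⟨d + Pi.single e (y e).sign, ?_, fun f => ?_, ?_⟩
  · rw [isFlow_iff]
    funext z
    rw [bd_add, Pi.add_apply, hd2, bd_sign _ _ _ he, ← hv₀]
    simp
  · by_cases hf : f = e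
    · subst hf
      right
      rw [Pi.add_apply, hde, Pi.single_eq_same, zero_add]
    · rw [Pi.add_apply, Pi.single_eq_of_ne hf, add_zero]
      rcases hd1 f with h1 | h1
      · left; exact h1
      · right; exact h1.2.1
  · rw [Pi.add_apply, hde, Pi.single_eq_same, zero_add]

omit [Fintype V] [Fintype E] [DecidableEq V] [DecidableEq E] G in
theorem conf_unit {d y : E → ℤ} (h : ∀ f, d f = 0 ∨ d f = (y f).sign) : IsUnit' d := by
  intro f
  rcases h f with h1 | h1
  · left; exact h1
  · by_cases hf : y f = 0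
    · left; rw [h1, hf]; rfl
    · rcases sign_cases _ hf with ⟨-, h2⟩ | ⟨-, h2⟩
      · right; left; rw [h1, h2]
      · right; right; rw [h1, h2]

/-- every flow is congruent to a unit flow modulo two -/
theorem exists_unit_mod_two : ∀ (n : ℕ) (x : E → ℤ), G.IsFlow x → ∑ f, (x f).natAbs ≤ n →
    ∃ u z, G.IsFlow u ∧ G.IsFlow z ∧ x = u + (2 : ℤ) • z ∧ IsUnit' u := by
  intro n
  induction n with
  | zero =>
    intro x hx hn
    have h0 : ∀ f, x f = 0 := fun f => by
      have := single_le_sum (f := fun f => (x f).natAbs) (fun i _ => Nat.zero_le _) (mem_univ f)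
      omega
    exact ⟨x, 0, hx, G.flows.zero_mem, by simp, fun f => Or.inl (h0 f)⟩
  | succ n ih =>
    intro x hx hn
    by_cases hall : IsUnit' x
    · exact ⟨x, 0, hx, G.flows.zero_mem, by simp, hall⟩
    · unfold IsUnit' at hall
      push Not at hall
      obtain ⟨e, h0, h1, h2⟩ := hall
      obtain ⟨d, hd, hc, hde⟩ := G.exists_conf hx h0
      have hx' : G.IsFlow (x - (2 : ℤ) • d) := hx.sub (hd.smul 2)
      have hle : ∀ f, ((x - (2 : ℤ) • d) f).natAbs ≤ (x f).natAbs := by
        intro f
        simp only [Pi.sub_apply, Pi.smul_apply, smul_eq_mul]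
        rcases hc f with h | h
        · rw [h]; simp
        · by_cases hf : x f = 0
          · rw [h, hf]; simp
          · rcases sign_cases _ hf with ⟨h3, h4⟩ | ⟨h3, h4⟩
            · rw [h, h4]; omega
            · rw [h, h4]; omega
      have hlt : ((x - (2 : ℤ) • d) e).natAbs < (x e).natAbs := by
        simp only [Pi.sub_apply, Pi.smul_apply, smul_eq_mul]
        rcases sign_cases _ h0 with ⟨h3, h4⟩ | ⟨h3, h4⟩
        · rw [hde, h4]; omega
        · rw [hde, h4]; omega
      have hsum : ∑ f, ((x - (2 : ℤ) • d) f).natAbs < ∑ f, (x f).natAbs :=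
        sum_lt_sum (fun f _ => hle f) ⟨e, mem_univ e, hlt⟩
      obtain ⟨u, z, hu, hz, he, hun⟩ := ih _ hx' (by omega)
      refine ⟨u, z + d, hu, hz.add hd, ?_, hun⟩
      rw [smul_add, ← add_assoc, ← he]
      simp

/-- conformal decomposition of flows -/
theorem flow_mem_span : ∀ (n : ℕ) (x : E → ℤ), G.IsFlow x → ∑ f, (x f).natAbs ≤ n →
    x ∈ Submodule.span ℤ {d | G.IsFlow d ∧ IsUnit' d ∧ ∀ f, x f = 0 → d f = 0} := by
  intro n
  induction n with
  | zero =>
    intro x hx hn
    have h0 : x = 0 := by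
      funext f
      have := single_le_sum (f := fun f => (x f).natAbs) (fun i _ => Nat.zero_le _) (mem_univ f)
      simp only [Pi.zero_apply]
      omega
    rw [h0]
    exact Submodule.zero_mem _
  | succ n ih =>
    intro x hx hn
    by_cases hx0 : x = 0
    · rw [hx0]
      exact Submodule.zero_mem _
    · obtain ⟨e, he⟩ : ∃ e, x e ≠ 0 := by
        by_contra hcon
        push Not at hcon
        exact hx0 (funext hcon)
      obtain ⟨d, hd, hc, hde⟩ := G.exists_conf hx he
      have hvan : ∀ f, x f = 0 → d f = 0 := by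
        intro f hf
        rcases hc f with h | h
        · exact h
        · rw [h, hf]; rfl
      have hle : ∀ f, ((x - d) f).natAbs ≤ (x f).natAbs := by
        intro f
        simp only [Pi.sub_apply]
        rcases hc f with h | h
        · rw [h]; simp
        · by_cases hf : x f = 0
          · rw [h, hf]; simp
          · rcases sign_cases _ hf with ⟨h3, h4⟩ | ⟨h3, h4⟩
            · rw [h, h4]; omega
            · rw [h, h4]; omega
      have hlt : ((x - d) e).natAbs < (x e).natAbs := by
        simp only [Pi.sub_apply]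
        rcases sign_cases _ he with ⟨h3, h4⟩ | ⟨h3, h4⟩
        · rw [hde, h4]; omega
        · rw [hde, h4]; omega
      have hsum : ∑ f, ((x - d) f).natAbs < ∑ f, (x f).natAbs :=
        sum_lt_sum (fun f _ => hle f) ⟨e, mem_univ e, hlt⟩
      have h1 := ih _ (hx.sub hd) (by omega)
      have h2 : x - d ∈ Submodule.span ℤ {d | G.IsFlow d ∧ IsUnit' d ∧ ∀ f, x f = 0 → d f = 0} := by
        refine Submodule.span_mono ?_ h1
        rintro d' ⟨h3, h4, h5⟩
        exact ⟨h3, h4, fun f hf => h5 f (by rw [Pi.sub_apply, hf, hvan f hf, sub_zero])⟩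
      have h3 : d ∈ Submodule.span ℤ {d | G.IsFlow d ∧ IsUnit' d ∧ ∀ f, x f = 0 → d f = 0} :=
        Submodule.subset_span ⟨hd, conf_unit hc, hvan⟩
      have := Submodule.add_mem _ h2 h3
      simpa using this

omit [Fintype V] [Fintype E] [DecidableEq V] [DecidableEq E] in
theorem cut_mem_span_aux : ∀ (M : ℕ) (y : V → ℤ), (∀ v, 0 ≤ y v ∧ y v ≤ M) →
    G.cut y ∈ Submodule.span ℤ {c | c ∈ G.cuts ∧ IsUnit' c ∧ ∀ f, G.cut y f = 0 → c f = 0} := by
  intro M
  induction M with
  | zero =>
    intro y hy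
    have h0 : G.cut y = 0 := by
      funext f
      have h1 := hy (G.tgt f)
      have h2 := hy (G.src f)
      simp only [cut, Pi.zero_apply]
      push_cast at h1 h2
      omega
    rw [h0]
    exact Submodule.zero_mem _
  | succ M ih =>
    intro y hy
    let y' : V → ℤ := fun v => min (y v) M
    let i : V → ℤ := fun v => if y v = (M : ℤ) + 1 then 1 else 0
    have hyi : y = y' + i := by
      funext v
      have := hy v
      simp only [y', i, Pi.add_apply]
      push_cast at this
      split_ifs with h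
      · rw [h]; simp
      · rw [min_eq_left (by omega)]; simp
    have hvan : ∀ f, G.cut y f = 0 → G.cut y' f = 0 ∧ G.cut i f = 0 := by
      intro f hf
      have h1 : y (G.tgt f) = y (G.src f) := by
        simp only [cut] at hf
        linarith
      simp only [cut, y', i, h1, sub_self, and_self]
    have h1 := ih y' (fun v => by
      have := hy v
      simp only [y']
      omega)
    have h2 : G.cut y' ∈ Submodule.span ℤ
        {c | c ∈ G.cuts ∧ IsUnit' c ∧ ∀ f, G.cut y f = 0 → c f = 0} := by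
      refine Submodule.span_mono ?_ h1
      rintro c ⟨h3, h4, h5⟩
      exact ⟨h3, h4, fun f hf => h5 f (hvan f hf).1⟩
    have h3 : G.cut i ∈ Submodule.span ℤ
        {c | c ∈ G.cuts ∧ IsUnit' c ∧ ∀ f, G.cut y f = 0 → c f = 0} := by
      refine Submodule.subset_span ⟨G.mem_cuts.2 ⟨_, rfl⟩, fun f => ?_, fun f hf => (hvan f hf).2⟩
      simp only [cut, i]
      split_ifs <;> simp
    have h4 := Submodule.add_mem _ h2 h3
    have h5 : G.cut y' + G.cut i = G.cut y := by
      conv_rhs => rw [hyi]
      funext f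
      simp only [cut, Pi.add_apply]
      ring
    rwa [h5] at h4

omit [Fintype E] [DecidableEq V] [DecidableEq E] in
/-- decomposition of cuts into unit cuts -/
theorem cut_mem_span {x : E → ℤ} (hx : x ∈ G.cuts) :
    x ∈ Submodule.span ℤ {c | c ∈ G.cuts ∧ IsUnit' c ∧ ∀ f, x f = 0 → c f = 0} := by
  obtain ⟨y, rfl⟩ := G.mem_cuts.1 hx
  -- shift the potential
  let m : ℤ := ∑ v, |y v|
  have hm : ∀ v, |y v| ≤ m := fun v =>
    single_le_sum (f := fun v => |y v|) (fun i _ => abs_nonneg _) (mem_univ v)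
  have hcut : G.cut (fun v => y v + m) = G.cut y := by
    funext f
    simp only [cut]
    ring
  rw [← hcut]
  apply G.cut_mem_span_aux (2 * m).toNat
  intro v
  have h1 := hm v
  rw [abs_le] at h1
  have h2 : 0 ≤ m := le_trans (abs_nonneg _) (hm v)
  rw [Int.toNat_of_nonneg (by omega)]
  omega

end Multigraph

end Pool.Agent.H762.TG
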