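import Pool.Agent.H762.TG.Conf
import Pool.Agent.H754.Pretzel.Embed

/-!
Chains of vectors of norm two in a standard lattice.
-/

set_option autoImplicit false

namespace Pool.Agent.H762.TG

open Finset Matrix
open Pool.Agent.H754.Pretzel (chain_lemma two_norm Good.vanish Good.extend Good.dot single_eval)

/-- A chain of three vectors. -/
theorem chain_three {ι : Type} [Fintype ι] [DecidableEq ι] (v : ℕ → ι → ℤ)
    (h2 : ∀ s < 3, v s ⬝ᵥ v s = 2) (hadj : ∀ s, s + 1 < 3 → v s ⬝ᵥ v (s + 1) = -1)
    (hfar : v 0 ⬝ᵥ v 2 = 0) (hw : ∃ w : ι → ℤ, Odd (w ⬝ᵥ v 0 + w ⬝ᵥ v 2)) :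
    ∃ b ε, Pool.Agent.H754.Pretzel.Good 3 v b ε := by
  obtain ⟨b, ε, hg⟩ := chain_lemma (n := 2) le_rfl (by norm_num) v (fun s hs => h2 s (by omega))
    (fun s hs => hadj s (by omega)) (fun s r h h' => by omega)
  have d0 := hg.dot (v 2) (by norm_num : 0 < 2)
  have d1 := hg.dot (v 2) (by norm_num : 1 < 2)
  rw [hfar] at d0
  have e1 : v 1 ⬝ᵥ v 2 = -1 := hadj 1 (by norm_num)
  rw [e1] at d1
  simp only [zero_add, Nat.reduceAdd] at d0 d1
  have hb01 : b 0 ≠ b 1 := fun h => by have := hg.2.1 0 1 (by norm_num) (by norm_num) h; omega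
  have hb02 : b 0 ≠ b 2 := fun h => by have := hg.2.1 0 2 (by norm_num) (by norm_num) h; omega
  have hb12 : b 1 ≠ b 2 := fun h => by have := hg.2.1 1 2 (by norm_num) (by norm_num) h; omega
  have hn : v 2 (b 0) ^ 2 + v 2 (b 1) ^ 2 + v 2 (b 2) ^ 2 ≤ 2 := by
    have h3 := h2 2 (by norm_num)
    rw [dot_self] at h3
    have h4 : ∑ x ∈ {b 0, b 1, b 2}, v 2 x ^ 2 ≤ ∑ x, v 2 x ^ 2 :=
      sum_le_sum_of_subset_of_nonneg (subset_univ _) fun i _ _ => sq_nonneg _
    rw [sum_insert (by simp [hb01, hb02]), sum_insert (by simp [hb12]), sum_singleton] at h4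
    linarith
  have hε0 := hg.1 0 (by norm_num)
  have hε1 := hg.1 1 (by norm_num)
  have hε2 := hg.1 2 (by norm_num)
  by_cases h0 : v 2 (b 0) = 0
  · have h1 : v 2 (b 1) = 0 := by
      rw [h0] at d0
      rcases hε1 with h | h <;> rw [h] at d0 <;> omega
    have h3 : v 2 (b 2) = ε 2 := by
      rw [h1] at d1
      rcases hε2 with h | h <;> rw [h] at d1 ⊢ <;> omega
    exact hg.extend (h2 2 (by norm_num)) (fun s hs => by
      interval_cases s
      · exact h0
      · exact h1) h3
  · exfalso
    -- the exceptional position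
    have h1 : v 2 (b 1) ≠ 0 := by
      intro h1
      apply h0
      rw [h1] at d0
      rcases hε0 with h | h <;> rw [h] at d0 <;> omega
    have a0 : 1 ≤ v 2 (b 0) ^ 2 := by
      have := Int.one_le_abs h0
      rw [← sq_abs]; nlinarith
    have a1 : 1 ≤ v 2 (b 1) ^ 2 := by
      have := Int.one_le_abs h1
      rw [← sq_abs]; nlinarith
    have a2 : v 2 (b 2) = 0 := by
      have : v 2 (b 2) ^ 2 ≤ 0 := by linarith
      exact pow_eq_zero_iff (two_ne_zero) |>.1 (le_antisymm this (sq_nonneg _))
    have hrest : ∀ x, x ≠ b 0 → x ≠ b 1 → v 2 x = 0 := by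
      intro x hx0 hx1
      have h3 := h2 2 (by norm_num)
      rw [dot_self] at h3
      have h4 : ∑ x ∈ {b 0, b 1, x}, v 2 x ^ 2 ≤ ∑ x, v 2 x ^ 2 :=
        sum_le_sum_of_subset_of_nonneg (subset_univ _) fun i _ _ => sq_nonneg _
      rw [sum_insert (by simp [hb01, hx0.symm]), sum_insert (by simp [hx1.symm]),
        sum_singleton] at h4
      have : v 2 x ^ 2 ≤ 0 := by linarith
      exact pow_eq_zero_iff (two_ne_zero) |>.1 (le_antisymm this (sq_nonneg _))
    have hv2 : v 2 = Pi.single (b 0) (v 2 (b 0)) + Pi.single (b 1) (v 2 (b 1)) := by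
      funext x
      rw [Pi.add_apply, Pi.single_apply, Pi.single_apply]
      by_cases hx0 : x = b 0
      · subst hx0
        rw [if_pos rfl, if_neg hb01, add_zero]
      · by_cases hx1 : x = b 1
        · subst hx1
          rw [if_neg hb01.symm, if_pos rfl, zero_add]
        · rw [if_neg hx0, if_neg hx1, hrest x hx0 hx1]; rfl
    rw [a2, mul_zero, sub_zero] at d1
    obtain ⟨w, k, hk⟩ := hw
    have hv0 := hg.2.2 0 (by norm_num)
    rw [hv0, hv2, dotProduct_sub, dotProduct_add, dotProduct_single, dotProduct_single,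
      dotProduct_single, dotProduct_single] at hk
    simp only [zero_add] at hk
    rcases hε0 with h3 | h3 <;> rcases hε1 with h4 | h4 <;> rw [h3, h4] at d0 hk <;>
      rw [h4] at d1
    · have e1 : v 2 (b 1) = -1 := by omega
      have e0 : v 2 (b 0) = -1 := by omega
      rw [e0, e1] at hk; omega
    · have e1 : v 2 (b 1) = 1 := by omega
      have e0 : v 2 (b 0) = -1 := by omega
      rw [e0, e1] at hk; omega
    · have e1 : v 2 (b 1) = -1 := by omega
      have e0 : v 2 (b 0) = 1 := by omega
      rw [e0, e1] at hk; omega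
    · have e1 : v 2 (b 1) = 1 := by omega
      have e0 : v 2 (b 0) = 1 := by omega
      rw [e0, e1] at hk; omega

/-- Several chains in one standard lattice. -/
theorem chains {ι : Type} [Fintype ι] [DecidableEq ι] {J : Type} {q : J → ℕ}
    {v : J → ℕ → ι → ℤ} (hq : ∀ j, 2 ≤ q j)
    (vv : ∀ j s, s < q j - 1 → v j s ⬝ᵥ v j s = 2)
    (vadj : ∀ j s, s + 1 < q j - 1 → v j s ⬝ᵥ v j (s + 1) = -1)
    (vfar : ∀ j s r, s + 2 ≤ r → r < q j - 1 → v j s ⬝ᵥ v j r = 0)
    (vne : ∀ j l s r, j ≠ l → s < q j - 1 → r < q l - 1 → v j s ⬝ᵥ v l r = 0)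
    (hw4 : ∀ j, q j = 4 → ∃ w : ι → ℤ, Odd (w ⬝ᵥ v j 0 + w ⬝ᵥ v j 2))
    (hw2 : ∀ j l, j ≠ l → q j = 2 → q l = 2 → ∃ w : ι → ℤ, Odd (w ⬝ᵥ v j 0 + w ⬝ᵥ v l 0)) :
    ∃ b : J → ℕ → ι, ∃ ε : J → ℕ → ℤ,
      (∀ j, Pool.Agent.H754.Pretzel.Good (q j - 1) (v j) (b j) (ε j)) ∧
      ∀ j l s r, s < q j → r < q l → b j s = b l r → j = l ∧ s = r := by
  have hch : ∀ j, ∃ b ε, Pool.Agent.H754.Pretzel.Good (q j - 1) (v j) b ε := by
    intro j
    by_cases h2 : q j = 2
    · obtain ⟨x, y, α, β, hxy, hα, hβ, he⟩ := two_norm (vv j 0 (by omega))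
      refine ⟨fun s => if s = 0 then x else y, fun s => if s = 0 then α else -β, ?_, ?_, ?_⟩
      · intro s _
        simp only
        split_ifs
        · exact hα
        · omega
      · intro s r hs hr h
        simp only at h
        split_ifs at h with a b b
        · omega
        · exact absurd h hxy
        · exact absurd h.symm hxy
        · omega
      · intro s hs
        have : s = 0 := by omega
        subst this
        rw [he]
        simp only [zero_add, if_true, one_ne_zero, if_false]
        rw [Pi.single_neg, sub_neg_eq_add]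
    · by_cases h4 : q j = 4
      · have h3 : q j - 1 = 3 := by omega
        rw [h3]
        exact chain_three (v j) (fun s hs => vv j s (by omega)) (fun s hs => vadj j s (by omega))
          (vfar j 0 2 le_rfl (by omega)) (hw4 j h4)
      · exact chain_lemma (by have := hq j; omega) (by have := hq j; omega) (v j)
          (vv j) (vadj j) (vfar j)
  choose b ε hg using hch
  refine ⟨b, ε, hg, ?_⟩
  -- a long chain and another chain
  have hne3 : ∀ j l, j ≠ l → 3 ≤ q j → ∀ s r, s ≤ q j - 1 → r ≤ q l - 1 → b j s ≠ b l r := by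
    intro j l hjl hj s r hs hr hcon
    have hl := hq l
    have : ∃ t, t < q l - 1 ∧ v l t (b l r) ≠ 0 := by
      rcases hr.lt_or_eq with hr | hr
      · refine ⟨r, hr, ?_⟩
        rw [(hg l).2.2 r hr, Pi.sub_apply, Pi.single_eq_same, single_eval]
        · rcases (hg l).1 r hr.le with h | h <;> rw [h] <;> norm_num
        · intro h
          have := (hg l).2.1 (r + 1) r (by omega) (by omega) h
          omega
      · refine ⟨r - 1, by omega, ?_⟩
        have e : r - 1 + 1 = r := by omega
        rw [(hg l).2.2 (r - 1) (by omega), e, Pi.sub_apply, Pi.single_eq_same, single_eval]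
        · rcases (hg l).1 r (by omega) with h | h <;> rw [h] <;> norm_num
        · intro h
          have := (hg l).2.1 (r - 1) r (by omega) (by omega) h
          omega
    obtain ⟨t, ht, ht0⟩ := this
    have h2 := (hg j).vanish (by omega) (u := v l t) (fun s hs => vne j l s t hjl hs ht)
      (vv l t ht) s hs
    rw [hcon] at h2
    exact ht0 h2
  -- two short chains
  have hne2 : ∀ j l, j ≠ l → q j = 2 → q l = 2 → ∀ s r, s ≤ q j - 1 → r ≤ q l - 1 →
      b j s ≠ b l r := by
    intro j l hjl hj hl s r hs hr hcon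
    obtain ⟨w, k, hk⟩ := hw2 j l hjl hj hl
    have g1 := hg j
    have g2 := hg l
    rw [show q j - 1 = 1 by omega] at g1 hs
    rw [show q l - 1 = 1 by omega] at g2 hr
    have hv1 := g1.2.2 0 (by norm_num)
    have hv2 := g2.2.2 0 (by norm_num)
    have hb1 : b j 0 ≠ b j 1 := fun h => by have := g1.2.1 0 1 (by norm_num) (by norm_num) h; omega
    have hb2 : b l 0 ≠ b l 1 := fun h => by have := g2.2.1 0 1 (by norm_num) (by norm_num) h; omega
    simp only [zero_add] at hv1 hv2
    have horth := vne j l 0 0 hjl (by omega) (by omega)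
    rw [hv1, hv2, sub_dotProduct, single_dotProduct, single_dotProduct, Pi.sub_apply,
      Pi.sub_apply, Pi.single_apply, Pi.single_apply, Pi.single_apply, Pi.single_apply] at horth
    rw [hv1, hv2, dotProduct_sub, dotProduct_sub, dotProduct_single, dotProduct_single,
      dotProduct_single, dotProduct_single] at hk
    have a0 := g1.1 0 (by norm_num)
    have a1 := g1.1 1 (by norm_num)
    have c0 := g2.1 0 (by norm_num)
    have c1 := g2.1 1 (by norm_num)
    have hcase : (b j 0 = b l 0 ∧ b j 1 = b l 1) ∨ (b j 0 = b l 1 ∧ b j 1 = b l 0) := by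
      by_cases h00 : b j 0 = b l 0
      · by_cases h11 : b j 1 = b l 1
        · left; exact ⟨h00, h11⟩
        · exfalso
          have h01 : b j 0 ≠ b l 1 := fun h => hb2 (h00.symm.trans h)
          have h10 : b j 1 ≠ b l 0 := fun h => hb1 (h00.trans h.symm)
          rw [if_pos h00, if_neg h01, if_neg h10, if_neg h11] at horth
          rcases a0 with h | h <;> rcases c0 with h' | h' <;> rw [h, h'] at horth <;> omega
      · by_cases h01 : b j 0 = b l 1
        · by_cases h10 : b j 1 = b l 0
          · right; exact ⟨h01, h10⟩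
          · exfalso
            have h11 : b j 1 ≠ b l 1 := fun h => hb1 (h01.trans h.symm)
            rw [if_neg h00, if_pos h01, if_neg h10, if_neg h11] at horth
            rcases a0 with h | h <;> rcases c1 with h' | h' <;> rw [h, h'] at horth <;> omega
        · exfalso
          rw [if_neg h00, if_neg h01] at horth
          by_cases h10 : b j 1 = b l 0
          · have h11 : b j 1 ≠ b l 1 := fun h => hb2 (h10.symm.trans h)
            rw [if_pos h10, if_neg h11] at horth
            rcases a1 with h | h <;> rcases c0 with h' | h' <;> rw [h, h'] at horth <;> omega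
          · by_cases h11 : b j 1 = b l 1
            · rw [if_neg h10, if_pos h11] at horth
              rcases a1 with h | h <;> rcases c1 with h' | h' <;> rw [h, h'] at horth <;> omega
            · interval_cases s <;> interval_cases r
              · exact h00 hcon
              · exact h01 hcon
              · exact h10 hcon
              · exact h11 hcon
    rcases hcase with ⟨e0, e1⟩ | ⟨e0, e1⟩
    · rw [e0, e1] at hk
      rcases a0 with h | h <;> rcases a1 with h' | h' <;> rcases c0 with k2 | k2 <;>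
        rcases c1 with k3 | k3 <;> rw [h, h', k2, k3] at hk <;> omega
    · rw [e0, e1] at hk
      rcases a0 with h | h <;> rcases a1 with h' | h' <;> rcases c0 with k2 | k2 <;>
        rcases c1 with k3 | k3 <;> rw [h, h', k2, k3] at hk <;> omega
  have hne : ∀ j l, j ≠ l → ∀ s r, s ≤ q j - 1 → r ≤ q l - 1 → b j s ≠ b l r := by
    intro j l hjl s r hs hr
    by_cases hj : 3 ≤ q j
    · exact hne3 j l hjl hj s r hs hr
    · by_cases hl : 3 ≤ q l
      · exact (hne3 l j hjl.symm hl r s hr hs).symm
      · exact hne2 j l hjl (by have := hq j; omega) (by have := hq l; omega) s r hs hr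
  intro j l s r hs hr hsr
  by_cases hjl : j = l
  · subst hjl
    exact ⟨rfl, (hg j).2.1 s r (by omega) (by omega) hsr⟩
  · exact absurd hsr (hne j l hjl s r (by omega) (by omega))


end Pool.Agent.H762.TG
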