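import Pool.Agent.H762.TG.Defs

/-!
Cuts and flows are orthogonal complements of each other.
-/

set_option autoImplicit false

namespace Pool.Agent.H762.TG

open Finset Matrix

section dot

variable {E : Type} [Fintype E]

theorem dot_self (u : E → ℤ) : u ⬝ᵥ u = ∑ e, u e ^ 2 := by
  rw [dotProduct]; exact sum_congr rfl fun e _ => (sq (u e)).symm

theorem dot_self_nonneg (u : E → ℤ) : 0 ≤ u ⬝ᵥ u := by
  rw [dot_self]; exact sum_nonneg fun e _ => sq_nonneg _

theorem eq_zero_of_dot {u : E → ℤ} (h : u ⬝ᵥ u = 0) : u = 0 := by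
  rw [dot_self, sum_eq_zero_iff_of_nonneg fun e _ => sq_nonneg _] at h
  funext e
  exact pow_eq_zero_iff (two_ne_zero) |>.1 (h e (mem_univ e))

end dot

namespace Multigraph

variable {V E : Type} [Fintype E] [DecidableEq V] (G : Multigraph V E)

/-- the boundary of a chain -/
def bd (w : E → ℤ) (v : V) : ℤ := ∑ e with G.tgt e = v, w e - ∑ e with G.src e = v, w e

theorem bd_add (w w' : E → ℤ) : G.bd (w + w') = G.bd w + G.bd w' := by
  funext v
  simp only [bd, Pi.add_apply, sum_add_distrib]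
  ring

theorem bd_neg (w : E → ℤ) : G.bd (-w) = -G.bd w := by
  funext v
  simp only [bd, Pi.neg_apply, sum_neg_distrib]
  ring

theorem bd_sub (w w' : E → ℤ) : G.bd (w - w') = G.bd w - G.bd w' := by
  rw [sub_eq_add_neg, bd_add, bd_neg, sub_eq_add_neg]

theorem bd_smul (c : ℤ) (w : E → ℤ) : G.bd (c • w) = c • G.bd w := by
  funext v
  simp only [bd, Pi.smul_apply, smul_eq_mul, ← mul_sum]
  ring

theorem isFlow_iff (w : E → ℤ) : G.IsFlow w ↔ G.bd w = 0 := by
  constructor
  · intro h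
    funext v
    simp only [bd, h v, sub_self, Pi.zero_apply]
  · intro h v
    have := congrFun h v
    simp only [bd, Pi.zero_apply] at this
    linarith

theorem IsFlow.add {G : Multigraph V E} {w w' : E → ℤ} (h : G.IsFlow w) (h' : G.IsFlow w') :
    G.IsFlow (w + w') := G.flows.add_mem h h'

theorem IsFlow.sub {G : Multigraph V E} {w w' : E → ℤ} (h : G.IsFlow w) (h' : G.IsFlow w') :
    G.IsFlow (w - w') := G.flows.sub_mem h h'

theorem IsFlow.smul {G : Multigraph V E} {w : E → ℤ} (h : G.IsFlow w) (c : ℤ) :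
    G.IsFlow (c • w) := G.flows.smul_mem c h

theorem IsFlow.neg {G : Multigraph V E} {w : E → ℤ} (h : G.IsFlow w) :
    G.IsFlow (-w) := G.flows.neg_mem h

theorem bd_single [DecidableEq E] (e : E) (v : V) : G.bd (Pi.single e 1) v =
    (if v = G.tgt e then 1 else 0) - (if v = G.src e then 1 else 0) := by
  simp only [bd, Pi.single_apply, sum_ite_eq', mem_filter, mem_univ, true_and]
  simp only [eq_comm]

/-- the cut of a potential -/
def cut (y : V → ℤ) (e : E) : ℤ := y (G.tgt e) - y (G.src e)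

omit [Fintype E] [DecidableEq V] in
theorem mem_cuts {x : E → ℤ} : x ∈ G.cuts ↔ ∃ y, x = G.cut y :=
  ⟨fun ⟨y, hy⟩ => ⟨y, funext hy⟩, fun ⟨y, hy⟩ => ⟨y, fun e => congrFun hy e⟩⟩

omit G in
theorem sum_fib [Fintype V] (f : E → V) (y : V → ℤ) (z : E → ℤ) :
    ∑ e, y (f e) * z e = ∑ v, y v * ∑ e with f e = v, z e := by
  rw [← sum_fiberwise univ f]
  apply sum_congr rfl
  intro v _
  rw [mul_sum]
  apply sum_congr rfl
  intro e he
  rw [(mem_filter.1 he).2]

theorem cut_dot [Fintype V] (y : V → ℤ) (z : E → ℤ) : G.cut y ⬝ᵥ z = y ⬝ᵥ G.bd z := by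
  simp only [dotProduct, cut, bd, sub_mul, mul_sub, sum_sub_distrib]
  rw [sum_fib G.tgt, sum_fib G.src]

theorem cuts_dot_flows [Fintype V] {x z : E → ℤ} (hx : x ∈ G.cuts) (hz : G.IsFlow z) :
    x ⬝ᵥ z = 0 := by
  obtain ⟨y, rfl⟩ := G.mem_cuts.1 hx
  rw [cut_dot, (G.isFlow_iff z).1 hz, dotProduct_zero]

theorem isFlow_of_dot [Fintype V] {z : E → ℤ} (h : ∀ x ∈ G.cuts, x ⬝ᵥ z = 0) : G.IsFlow z := by
  rw [isFlow_iff]
  have h1 := h (G.cut (G.bd z)) (G.mem_cuts.2 ⟨_, rfl⟩)
  rw [cut_dot] at h1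
  exact eq_zero_of_dot h1

/-- `u` and `v` are joined by a chain -/
def Conn (u v : V) : Prop :=
  ∃ w : E → ℤ, ∀ z, G.bd w z = (if z = v then 1 else 0) - (if z = u then 1 else 0)

/-- connectedness is an equivalence relation -/
def connSetoid : Setoid V where
  r := G.Conn
  iseqv := by
    refine ⟨fun u => ⟨0, fun z => by simp [bd]⟩, ?_, ?_⟩
    · rintro u v ⟨w, hw⟩
      exact ⟨-w, fun z => by rw [bd_neg, Pi.neg_apply, hw]; ring⟩
    · rintro u v v' ⟨w, hw⟩ ⟨w', hw'⟩
      exact ⟨w + w', fun z => by rw [bd_add, Pi.add_apply, hw, hw']; ring⟩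

theorem mem_cuts_of_dot {x : E → ℤ} (h : ∀ z, G.IsFlow z → x ⬝ᵥ z = 0) : x ∈ G.cuts := by
  classical
  let r : V → V := fun v => (Quotient.mk G.connSetoid v).out
  have hr : ∀ v, G.Conn (r v) v := fun v => Quotient.exact (s := G.connSetoid) (Quotient.out_eq _)
  choose w hw using hr
  refine ⟨fun v => x ⬝ᵥ w v, fun e => ?_⟩
  have he : G.Conn (G.src e) (G.tgt e) := ⟨Pi.single e 1, G.bd_single e⟩
  have hre : r (G.src e) = r (G.tgt e) := by
    change (Quotient.mk G.connSetoid (G.src e)).out = (Quotient.mk G.connSetoid (G.tgt e)).out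
    rw [Quotient.sound (s := G.connSetoid) he]
  have h1 : G.IsFlow (w (G.tgt e) - w (G.src e) - Pi.single e 1) := by
    rw [isFlow_iff]
    funext z
    rw [bd_sub, bd_sub, Pi.sub_apply, Pi.sub_apply, hw, hw, bd_single, hre]
    simp
  have h2 := h _ h1
  rw [dotProduct_sub, dotProduct_sub, dotProduct_single, mul_one] at h2
  linarith

/-- the boundary as a linear map -/
def bdL : (E → ℤ) →ₗ[ℤ] (V → ℤ) where
  toFun := G.bd
  map_add' := G.bd_add
  map_smul' := G.bd_smul

/-- the coboundary as a linear map -/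
def cutL : (V → ℤ) →ₗ[ℤ] (E → ℤ) where
  toFun := G.cut
  map_add' y y' := by funext e; simp only [cut, Pi.add_apply]; ring
  map_smul' c y := by funext e; simp only [cut, Pi.smul_apply, smul_eq_mul, RingHom.id_apply]; ring

theorem finrank_add [Fintype V] : Module.finrank ℤ G.cuts + Module.finrank ℤ G.flows =
    Fintype.card E := by
  have hk : LinearMap.ker G.bdL = G.flows := by
    ext x
    exact ((G.isFlow_iff x).symm : G.bd x = 0 ↔ _)
  have hc : LinearMap.range G.cutL = G.cuts := by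
    ext x
    rw [LinearMap.mem_range, mem_cuts]
    exact ⟨fun ⟨y, hy⟩ => ⟨y, hy.symm⟩, fun ⟨y, hy⟩ => ⟨y, hy.symm⟩⟩
  have h1 := Submodule.finrank_quotient_add_finrank (LinearMap.ker G.bdL)
  rw [LinearEquiv.finrank_eq G.bdL.quotKerEquivRange, hk, Module.finrank_fintype_fun_eq_card] at h1
  have h2 : Module.finrank ℤ G.cuts ≤ Module.finrank ℤ (LinearMap.range G.bdL) := by
    apply LinearMap.finrank_le_finrank_of_injective (f := G.bdL.rangeRestrict ∘ₗ G.cuts.subtype)
    rw [← LinearMap.ker_eq_bot, LinearMap.ker_eq_bot']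
    intro x hx
    have hx0 : G.bd (x : E → ℤ) = 0 := congrArg Subtype.val hx
    have := G.cuts_dot_flows x.2 ((G.isFlow_iff _).2 hx0)
    exact Subtype.ext (eq_zero_of_dot this)
  have h3 : Module.finrank ℤ (LinearMap.range G.bdL) ≤ Module.finrank ℤ G.cuts := by
    rw [← hc]
    apply LinearMap.finrank_le_finrank_of_injective
      (f := G.cutL.rangeRestrict ∘ₗ (LinearMap.range G.bdL).subtype)
    rw [← LinearMap.ker_eq_bot, LinearMap.ker_eq_bot']
    rintro ⟨z, x, hx⟩ hz
    have hz0 : G.cut z = 0 := congrArg Subtype.val hz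
    have h4 : z ⬝ᵥ z = 0 := by
      conv_lhs => rw [← hx]
      change G.bd x ⬝ᵥ G.bd x = 0
      have hx' : G.bd x = z := hx
      rw [← cut_dot, hx', hz0, zero_dotProduct]
    exact Subtype.ext (eq_zero_of_dot h4)
  omega

end Multigraph

end Pool.Agent.H762.TG
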