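import Mathlib

/-!
# Tait graphs and their lattices: definitions

Finite multigraphs, their lattices of integral cuts and flows, series classes of edges.
-/

set_option autoImplicit false

namespace Pool.Agent.H762.TG

open Finset Matrix

/-- A multigraph (loops and multiple edges are allowed) with the set `V` of vertices and the set `E`
of edges; the edge `e` joins `src e` and `tgt e` (and gets thereby an orientation, which is
arbitrary). -/
structure Multigraph (V E : Type) where
  /-- one end of the edge -/
  src : E → V
  /-- the other end of the edge -/
  tgt : E → V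

namespace Multigraph

variable {V E : Type} [Fintype E] [DecidableEq V]

/-- `x` is an integral flow: at every vertex the sum of the values of `x` on the incoming edges is
the sum of its values on the outgoing edges. -/
def IsFlow (G : Multigraph V E) (x : E → ℤ) : Prop :=
  ∀ v, ∑ e with G.tgt e = v, x e = ∑ e with G.src e = v, x e

/-- The lattice of integral flows of the graph. -/
def flows (G : Multigraph V E) : Submodule ℤ (E → ℤ) where
  carrier := {x | G.IsFlow x}
  add_mem' := by
    intro x y hx hy v
    simp only [Pi.add_apply, sum_add_distrib]
    rw [hx v, hy v]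
  zero_mem' := by
    intro v
    simp
  smul_mem' := by
    intro c x hx v
    simp only [Pi.smul_apply, smul_eq_mul, ← mul_sum]
    rw [hx v]

omit [Fintype E] [DecidableEq V] in
/-- The lattice of integral cuts of the graph: it consists of the functions
`e ↦ y (tgt e) - y (src e)`, where `y` is an integral function on the set of vertices. -/
def cuts (G : Multigraph V E) : Submodule ℤ (E → ℤ) where
  carrier := {x | ∃ y : V → ℤ, ∀ e, x e = y (G.tgt e) - y (G.src e)}
  add_mem' := by
    rintro x x' ⟨y, hy⟩ ⟨y', hy'⟩
    exact ⟨y + y', fun e => by simp only [Pi.add_apply, hy e, hy' e]; ring⟩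
  zero_mem' := ⟨0, fun e => by simp⟩
  smul_mem' := by
    rintro c x ⟨y, hy⟩
    exact ⟨c • y, fun e => by simp only [Pi.smul_apply, smul_eq_mul, hy e]; ring⟩

/-- The edges `e` and `f` are in series: a flow vanishes at `e` if and only if it vanishes at `f`
(equivalently, every circuit passing through one of them passes through the other). -/
def Series (G : Multigraph V E) (e f : E) : Prop := ∀ x, G.IsFlow x → (x e = 0 ↔ x f = 0)

/-- No edge is a bridge, every series class of edges has at least two elements, and no set of four
edges which is a union of series classes is an even subgraph (that is, meets all cuts in an even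
number of edges). -/
def Long (G : Multigraph V E) : Prop :=
  (∀ e, (∃ x, G.IsFlow x ∧ x e ≠ 0) ∧ 2 ≤ {f | G.Series e f}.ncard) ∧
    ∀ D : Finset E, D.card = 4 → (∀ e ∈ D, ∀ f, G.Series e f → f ∈ D) →
      ∃ x ∈ G.cuts, Odd (∑ e ∈ D, x e)

/-- The rank of the lattice of cuts. -/
noncomputable def rank (G : Multigraph V E) : ℕ := Module.finrank ℤ G.cuts

/-- The rank of the lattice of flows. -/
noncomputable def nullity (G : Multigraph V E) : ℕ := Module.finrank ℤ G.flows

end Multigraph

/-- The restriction of `φ` to the lattice `L` is a homomorphism and preserves the standard scalar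
product, that is, it embeds `L` isometrically in the standard lattice `κ → ℤ`. -/
def IsIsometry {ι κ : Type} [Fintype ι] [Fintype κ] (L : Submodule ℤ (ι → ℤ))
    (φ : (ι → ℤ) → κ → ℤ) : Prop :=
  ∀ x ∈ L, ∀ y ∈ L, φ (x + y) = φ x + φ y ∧ φ x ⬝ᵥ φ y = x ⬝ᵥ y

/-- The orthogonal sum of the lattice of cuts of `G` and the lattice of flows of `G'` (with the
standard scalar products) is embedded isometrically in the standard lattice of the same rank: `φ`
and `ψ` are the restrictions of the embedding to the two summands. -/
def Embeds {V E V' E' : Type} [Fintype E] [Fintype E'] [DecidableEq V']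
    (G : Multigraph V E) (G' : Multigraph V' E') : Prop :=
  ∃ (φ : (E → ℤ) → Fin (G.rank + G'.nullity) → ℤ) (ψ : (E' → ℤ) → Fin (G.rank + G'.nullity) → ℤ),
    IsIsometry G.cuts φ ∧ IsIsometry G'.flows ψ ∧
      ∀ x ∈ G.cuts, ∀ y ∈ G'.flows, φ x ⬝ᵥ ψ y = 0

end Pool.Agent.H762.TG
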