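import Pool.Agent.H762.TG.Series

/-!
An embedding of the sum of the lattice of cuts of a long graph and the lattice of flows of another
graph restricts to an isometric map between the lattices of flows.
-/

set_option autoImplicit false

namespace Pool.Agent.H762.TG

open Finset Matrix

namespace Multigraph

variable {V E : Type} [Fintype V] [Fintype E] [DecidableEq V] [DecidableEq E] (G : Multigraph V E)

omit [Fintype V] in
theorem card_le (hG : G.Long) {sg : E → ℤ} (hs1 : ∀ e, sg e = 1 ∨ sg e = -1)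
    (hsg : ∀ e f, G.Series e f → ∀ x, G.IsFlow x → sg e * x e = sg f * x f)
    {ι : Type} [Fintype ι] (φ : G.cuts →ₗ[ℤ] (ι → ℤ))
    (hφ : ∀ a b, φ a ⬝ᵥ φ b = (a : E → ℤ) ⬝ᵥ (b : E → ℤ)) :
    Fintype.card E ≤ Fintype.card ι := by
  classical
  obtain ⟨b, ε, hb, -, -⟩ := G.exists_coords hG hs1 hsg φ hφ
  exact Fintype.card_le_of_injective b hb

/-- The restriction to the lattice of cuts is the standard embedding, after a change of
coordinates. -/
theorem exists_standard (hG : G.Long) {sg : E → ℤ} (hs1 : ∀ e, sg e = 1 ∨ sg e = -1)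
    (hsg : ∀ e f, G.Series e f → ∀ x, G.IsFlow x → sg e * x e = sg f * x f)
    {ι : Type} [Fintype ι] (hcard : Fintype.card ι = Fintype.card E) (φ : G.cuts →ₗ[ℤ] (ι → ℤ))
    (hφ : ∀ a b, φ a ⬝ᵥ φ b = (a : E → ℤ) ⬝ᵥ (b : E → ℤ)) :
    ∃ Θ : (ι → ℤ) →ₗ[ℤ] (E → ℤ), (∀ u w, Θ u ⬝ᵥ Θ w = u ⬝ᵥ w) ∧ ∀ z, Θ (φ z) = (z : E → ℤ) := by
  classical
  obtain ⟨b, ε, hb, hε, hroot⟩ := G.exists_coords hG hs1 hsg φ hφ
  have hbij : Function.Bijective b := by
    rw [Fintype.bijective_iff_injective_and_card]
    exact ⟨hb, hcard.symm⟩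
  let Θ : (ι → ℤ) →ₗ[ℤ] (E → ℤ) :=
    { toFun := fun u e => sg e * ε e * u (b e)
      map_add' := fun u w => by funext e; simp only [Pi.add_apply]; ring
      map_smul' := fun c u => by
        funext e; simp only [Pi.smul_apply, smul_eq_mul, RingHom.id_apply]; ring }
  have hsq : ∀ e, sg e * sg e = 1 := fun e => by rcases hs1 e with h | h <;> rw [h] <;> rfl
  have hεq : ∀ e, ε e * ε e = 1 := fun e => by rcases hε e with h | h <;> rw [h] <;> rfl
  have hΘ : ∀ u w, Θ u ⬝ᵥ Θ w = u ⬝ᵥ w := by
    intro u w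
    simp only [dotProduct]
    rw [← (Equiv.ofBijective b hbij).sum_comp]
    apply sum_congr rfl
    intro e _
    change sg e * ε e * u (b e) * (sg e * ε e * w (b e)) = u (b e) * w (b e)
    calc sg e * ε e * u (b e) * (sg e * ε e * w (b e)) =
        (sg e * sg e) * (ε e * ε e) * (u (b e) * w (b e)) := by ring
      _ = _ := by rw [hsq, hεq]; ring
  -- the difference
  let Δ : G.cuts →ₗ[ℤ] (E → ℤ) := Θ ∘ₗ φ - G.cuts.subtype
  have hΔ : ∀ z, Δ z = Θ (φ z) - (z : E → ℤ) := fun z => rfl
  have hr0 : ∀ e f (h : G.Series e f), Δ ⟨root sg e f, G.root_mem hsg h⟩ = 0 := by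
    intro e f h
    rw [hΔ, hroot e f h]
    funext g
    change sg g * ε g * ((Pi.single (b e) (ε e) - Pi.single (b f) (ε f) : ι → ℤ) (b g)) -
      root sg e f g = 0
    rw [Pi.sub_apply, Pi.single_apply, Pi.single_apply, root, Pi.sub_apply, Pi.single_apply,
      Pi.single_apply]
    simp only [hb.eq_iff]
    by_cases h1 : g = e
    · subst h1
      by_cases h2 : g = f
      · subst h2; simp
      · rw [if_pos rfl, if_neg h2, if_pos rfl, if_neg h2, sub_zero, sub_zero, mul_assoc, hεq]
        ring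
    · by_cases h2 : g = f
      · subst h2
        rw [if_neg h1, if_pos rfl, if_neg h1, if_pos rfl, zero_sub, zero_sub, mul_neg, mul_assoc,
          hεq]
        ring
      · rw [if_neg h1, if_neg h2, if_neg h1, if_neg h2]
        ring
  have hΔser : ∀ (z : G.cuts) e f, G.Series e f → sg e * Δ z e = sg f * Δ z f := by
    intro z e f h
    have h1 : Θ (φ ⟨root sg e f, G.root_mem hsg h⟩) = root sg e f := by
      have := hr0 e f h
      rw [hΔ, sub_eq_zero] at this
      exact this
    have h2 : root sg e f ⬝ᵥ Δ z = 0 := by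
      rw [hΔ, dotProduct_sub, sub_eq_zero]
      conv_lhs => rw [← h1]
      rw [hΘ, hφ]
    rw [root_dot] at h2
    linarith
  -- representatives
  let r : E → E := fun e => (Quotient.mk G.seriesSetoid e).out
  have hr : ∀ e, G.Series (r e) e := fun e =>
    Quotient.exact (s := G.seriesSetoid) (Quotient.out_eq _)
  have hrr : ∀ e f, G.Series e f → r e = r f := by
    intro e f h
    change (Quotient.mk G.seriesSetoid e).out = (Quotient.mk G.seriesSetoid f).out
    rw [Quotient.sound (s := G.seriesSetoid) h]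
  have hrid : ∀ e, r (r e) = r e := fun e => hrr _ _ (hr e)
  let n : E → ℕ := fun g => (univ.filter fun e => r e = g).card
  have hn2 : ∀ g, r g = g → 2 ≤ n g := by
    intro g hg
    obtain ⟨-, h7⟩ := hG.1 g
    refine h7.trans (le_of_eq ?_)
    rw [Set.ncard_eq_toFinset_card']
    congr 1
    ext e
    simp only [Set.mem_toFinset, mem_filter, mem_univ, true_and]
    constructor
    · intro h
      have h' : G.Series g e := h
      rw [← hrr _ _ h', hg]
    · intro h
      have := hr e
      rw [h] at this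
      exact this
  -- unit cuts supported on representatives
  have hunit : ∀ z : G.cuts, IsUnit' (z : E → ℤ) → (∀ f, r f ≠ f → (z : E → ℤ) f = 0) →
      ∀ g, r g = g → Δ z g = 0 ∨ (n g = 2 ∧ Δ z g = -(z : E → ℤ) g) := by
    intro z hz hz0
    have h1 : (z : E → ℤ) + Δ z = Θ (φ z) := by rw [hΔ]; abel
    have h2 : Θ (φ z) ⬝ᵥ Θ (φ z) = (z : E → ℤ) ⬝ᵥ (z : E → ℤ) := by rw [hΘ, hφ]
    rw [← h1, dot_self, dot_self] at h2
    have h3 : ∀ e, Δ z e ^ 2 = Δ z (r e) ^ 2 := by
      intro e
      have h4 := hΔser z _ _ (hr e)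
      have h5 : (sg (r e) * Δ z (r e)) ^ 2 = (sg e * Δ z e) ^ 2 := by rw [h4]
      rw [mul_pow, mul_pow, sq (sg e), sq (sg (r e)), hsq, hsq] at h5
      linarith
    have h4 : ∑ e, Δ z e ^ 2 = ∑ g, (n g : ℤ) * Δ z g ^ 2 := by
      rw [sum_congr rfl fun e _ => h3 e, ← sum_fiberwise univ r]
      apply sum_congr rfl
      intro g _
      rw [sum_congr rfl (g := fun _ => Δ z g ^ 2) fun e he => by rw [(mem_filter.1 he).2]]
      rw [sum_const, nsmul_eq_mul]
    have h5 : ∑ g, ((n g : ℤ) * Δ z g ^ 2 + 2 * (z : E → ℤ) g * Δ z g) = 0 := by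
      rw [sum_add_distrib, ← h4, ← sum_add_distrib]
      have h6 : ∑ e, ((z : E → ℤ) + Δ z) e ^ 2 =
          ∑ e, (z : E → ℤ) e ^ 2 + ∑ e, (Δ z e ^ 2 + 2 * (z : E → ℤ) e * Δ z e) := by
        rw [← sum_add_distrib]
        apply sum_congr rfl
        intro e _
        rw [Pi.add_apply]
        ring
      rw [h6] at h2
      linarith
    have hnn : ∀ g ∈ univ, 0 ≤ (n g : ℤ) * Δ z g ^ 2 + 2 * (z : E → ℤ) g * Δ z g := by
      intro g _
      by_cases hg : r g = g
      · have h6' : (2 : ℤ) ≤ (n g : ℤ) := by exact_mod_cast hn2 g hg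
        have h8 : |Δ z g| ≤ Δ z g ^ 2 := by
          rw [← sq_abs]
          rcases eq_or_lt_of_le (abs_nonneg (Δ z g)) with h | h
          · rw [← h]; rfl
          · have : 1 ≤ |Δ z g| := h
            nlinarith
        have h9 : -|Δ z g| ≤ (z : E → ℤ) g * Δ z g := by
          rcases hz g with h | h | h
          · rw [h, zero_mul]; linarith [abs_nonneg (Δ z g)]
          · rw [h, one_mul]; exact neg_abs_le _
          · rw [h, neg_one_mul]; linarith [le_abs_self (Δ z g)]
        nlinarith [sq_nonneg (Δ z g)]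
      · rw [hz0 g hg, mul_zero, zero_mul, add_zero]
        positivity
    rw [sum_eq_zero_iff_of_nonneg hnn] at h5
    intro g hg
    have h6 := h5 g (mem_univ g)
    have h7 := hn2 g hg
    by_cases h8 : Δ z g = 0
    · left; exact h8
    · right
      have h9 : (n g : ℤ) * Δ z g = -2 * (z : E → ℤ) g := by
        have : Δ z g * ((n g : ℤ) * Δ z g + 2 * (z : E → ℤ) g) = 0 := by linarith
        rcases mul_eq_zero.1 this with h | h
        · exact absurd h h8
        · linarith
      have h10 : (1 : ℤ) ≤ |Δ z g| := Int.one_le_abs h8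
      have h11 : (n g : ℤ) * |Δ z g| ≤ 2 := by
        have : |(n g : ℤ) * Δ z g| = (n g : ℤ) * |Δ z g| := by
          rw [abs_mul, abs_of_nonneg (by positivity : (0 : ℤ) ≤ (n g : ℤ))]
        rw [← this, h9]
        rcases hz g with h | h | h <;> rw [h] <;> norm_num
      have h12 : (n g : ℤ) = 2 := by
        have : (2 : ℤ) ≤ (n g : ℤ) := by exact_mod_cast h7
        nlinarith
      refine ⟨by exact_mod_cast h12, ?_⟩
      rw [h12] at h9
      linarith
  -- the support condition
  let C0 : G.cuts → Prop := fun z => ∀ f, r f ≠ f → (z : E → ℤ) f = 0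
  have hspan0 : ∀ (z : G.cuts), C0 z → ∀ (K : Submodule ℤ G.cuts),
      (∀ c : G.cuts, IsUnit' (c : E → ℤ) → C0 c →
        (∀ f, (z : E → ℤ) f = 0 → (c : E → ℤ) f = 0) → c ∈ K) → z ∈ K := by
    intro z hz K hK
    have h1 := G.cut_mem_span z.2
    have h2 : (z : E → ℤ) ∈ K.map G.cuts.subtype := by
      refine (Submodule.span_le.2 ?_) h1
      rintro c ⟨hc, hcu, hcv⟩
      exact ⟨⟨c, hc⟩, hK ⟨c, hc⟩ hcu (fun f hf => hcv f (hz f hf)) hcv, rfl⟩
    obtain ⟨u, hu, hue⟩ := h2
    have h3 : u = z := Subtype.ext hue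
    rwa [h3] at hu
  let ev : E → G.cuts →ₗ[ℤ] ℤ := fun g => (LinearMap.proj g : (E → ℤ) →ₗ[ℤ] ℤ) ∘ₗ Δ
  have hdich : ∀ g, r g = g → (∀ z, C0 z → Δ z g = 0) ∨
      (n g = 2 ∧ ∀ z, C0 z → Δ z g = -(z : E → ℤ) g) := by
    intro g hg
    have hzero : ∀ z, C0 z → (z : E → ℤ) g = 0 → Δ z g = 0 := by
      intro z hz hzg
      refine hspan0 z hz (LinearMap.ker (ev g)) fun c hcu hc0 hcv => ?_
      rw [LinearMap.mem_ker]
      change Δ c g = 0
      rcases hunit c hcu hc0 g hg with h | ⟨-, h⟩
      · exact h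
      · rw [h, hcv g hzg, neg_zero]
    by_cases hex : ∃ z₀ : G.cuts, IsUnit' (z₀ : E → ℤ) ∧ C0 z₀ ∧ (z₀ : E → ℤ) g ≠ 0
    · obtain ⟨z₀, hu0, hc0, hg0⟩ := hex
      have hsq0 : (z₀ : E → ℤ) g * (z₀ : E → ℤ) g = 1 := by
        rcases hu0 g with h | h | h
        · exact absurd h hg0
        · rw [h]; rfl
        · rw [h]; rfl
      have hlin : ∀ z, C0 z → Δ z g = (z : E → ℤ) g * (z₀ : E → ℤ) g * Δ z₀ g := by
        intro z hz
        have h1 := hzero (z - ((z : E → ℤ) g * (z₀ : E → ℤ) g) • z₀) (by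
          intro f hf
          change (z : E → ℤ) f - ((z : E → ℤ) g * (z₀ : E → ℤ) g) * (z₀ : E → ℤ) f = 0
          rw [hz f hf, hc0 f hf]; ring) (by
          change (z : E → ℤ) g - ((z : E → ℤ) g * (z₀ : E → ℤ) g) * (z₀ : E → ℤ) g = 0
          rw [mul_assoc, hsq0]; ring)
        rw [map_sub, map_smul, Pi.sub_apply, Pi.smul_apply, smul_eq_mul] at h1
        linarith
      rcases hunit z₀ hu0 hc0 g hg with h | ⟨h, h'⟩
      · left
        intro z hz
        rw [hlin z hz, h, mul_zero]
      · right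
        refine ⟨h, fun z hz => ?_⟩
        rw [hlin z hz, h', mul_neg, mul_assoc, hsq0, mul_one]
    · left
      push Not at hex
      intro z hz
      refine hspan0 z hz (LinearMap.ker (ev g)) fun c hcu hc0 _ => ?_
      rw [LinearMap.mem_ker]
      change Δ c g = 0
      rcases hunit c hcu hc0 g hg with h | ⟨-, h⟩
      · exact h
      · rw [h, hex c hcu hc0, neg_zero]
  -- the classes with two elements where the coordinates have to be exchanged
  let B : E → Prop := fun g => ¬ ∀ z, C0 z → Δ z g = 0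
  have hB : ∀ g, r g = g → B g → n g = 2 ∧ ∀ z, C0 z → Δ z g = -(z : E → ℤ) g := by
    intro g hg hb
    rcases hdich g hg with h | h
    · exact absurd h hb
    · exact h
  have hpart : ∀ x, ∃ y, r y = r x ∧ (¬ B (r x) → y = x) ∧
      (B (r x) → y ≠ x ∧ ∀ e, r e = r x → e = x ∨ e = y) := by
    intro x
    by_cases hb : B (r x)
    · have h1 := (hB (r x) (hrid x) hb).1
      change (univ.filter fun e => r e = r x).card = 2 at h1
      rw [card_eq_two] at h1
      obtain ⟨a, b', hab, hS⟩ := h1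
      have hx : x ∈ ({a, b'} : Finset E) := by rw [← hS]; simp
      have ha : a ∈ univ.filter fun e => r e = r x := by rw [hS]; simp
      have hb' : b' ∈ univ.filter fun e => r e = r x := by rw [hS]; simp
      have hall : ∀ e, r e = r x → e = a ∨ e = b' := by
        intro e he
        have : e ∈ ({a, b'} : Finset E) := by rw [← hS]; simp [he]
        simpa using this
      rw [mem_insert, mem_singleton] at hx
      rcases hx with rfl | rfl
      · exact ⟨b', (mem_filter.1 hb').2, fun h => absurd hb h, fun _ => ⟨hab.symm, hall⟩⟩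
      · exact ⟨a, (mem_filter.1 ha).2, fun h => absurd hb h,
          fun _ => ⟨hab, fun e he => (hall e he).symm⟩⟩
    · exact ⟨x, rfl, fun _ => rfl, fun h => absurd h hb⟩
  choose s hs1' hs2' hs3' using hpart
  have hinv : Function.Involutive s := by
    intro x
    by_cases hb : B (r x)
    · have h1 := (hs3' x hb).1
      have hb2 : B (r (s x)) := by rw [hs1']; exact hb
      have h2 := hs3' (s x) hb2
      rcases h2.2 x (hs1' x).symm with h | h
      · exact absurd h.symm h1
      · exact h.symm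
    · rw [hs2' x hb, hs2' x hb]
  let τ : E → ℤ := fun x => if B (r x) then -(sg x * sg (s x)) else 1
  have hτ : ∀ x, τ x * τ x = 1 := by
    intro x
    simp only [τ]
    split_ifs
    · calc -(sg x * sg (s x)) * -(sg x * sg (s x)) = (sg x * sg x) * (sg (s x) * sg (s x)) := by
            ring
        _ = 1 := by rw [hsq, hsq]; rfl
    · rfl
  let T : (E → ℤ) →ₗ[ℤ] (E → ℤ) :=
    { toFun := fun u x => τ x * u (s x)
      map_add' := fun u w => by funext x; simp only [Pi.add_apply]; ring
      map_smul' := fun c u => by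
        funext x; simp only [Pi.smul_apply, smul_eq_mul, RingHom.id_apply]; ring }
  have hT : ∀ u w, T u ⬝ᵥ T w = u ⬝ᵥ w := by
    intro u w
    simp only [dotProduct]
    have hsc := Equiv.sum_comp (hinv.toPerm s) (fun x => u x * w x)
    rw [← hsc]
    apply sum_congr rfl
    intro x _
    change τ x * u (s x) * (τ x * w (s x)) = u (s x) * w (s x)
    calc τ x * u (s x) * (τ x * w (s x)) = (τ x * τ x) * (u (s x) * w (s x)) := by ring
      _ = _ := by rw [hτ, one_mul]
  have hTfix : ∀ u : E → ℤ, (∀ x, B (r x) → sg x * u x + sg (s x) * u (s x) = 0) → T u = u := by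
    intro u hu
    funext x
    change τ x * u (s x) = u x
    by_cases hb : B (r x)
    · have h1 := hu x hb
      simp only [τ, if_pos hb]
      calc -(sg x * sg (s x)) * u (s x) = sg x * (-(sg (s x) * u (s x))) := by ring
        _ = sg x * (sg x * u x) := by
            rw [show -(sg (s x) * u (s x)) = sg x * u x by linarith]
        _ = u x := by rw [← mul_assoc, hsq, one_mul]
    · simp only [τ, if_neg hb, one_mul, hs2' x hb]
  refine ⟨T ∘ₗ Θ, fun u w => by rw [LinearMap.comp_apply, LinearMap.comp_apply, hT, hΘ], ?_⟩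
  let Δ' : G.cuts →ₗ[ℤ] (E → ℤ) := (T ∘ₗ Θ) ∘ₗ φ - G.cuts.subtype
  have hΔ' : ∀ z, Δ' z = T (Θ (φ z)) - (z : E → ℤ) := fun z => rfl
  have hr0' : ∀ e f (h : G.Series e f), Δ' ⟨root sg e f, G.root_mem hsg h⟩ = 0 := by
    intro e f h
    have h1 := hr0 e f h
    rw [hΔ, sub_eq_zero] at h1
    rw [hΔ', h1, sub_eq_zero]
    apply hTfix
    intro x hb
    obtain ⟨h2, h3⟩ := hs3' x hb
    have hre : r e = r f := hrr e f h
    have hcount : ∀ a : E, sg x * (if x = a then sg a else 0) + sg (s x) *
        (if s x = a then sg a else 0) = if r a = r x then 1 else 0 := by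
      intro a
      by_cases ha : r a = r x
      · rw [if_pos ha]
        rcases h3 a ha with h4 | h4
        · subst h4
          rw [if_pos rfl, if_neg h2, hsq, mul_zero, add_zero]
        · subst h4
          rw [if_neg h2.symm, if_pos rfl, hsq, mul_zero, zero_add]
      · rw [if_neg ha, if_neg (fun h4 => ha (by rw [h4])),
          if_neg (fun h4 => ha (by rw [← h4, hs1'])), mul_zero, mul_zero, add_zero]
    have h4 : ∀ y, root sg e f y = (if y = e then sg e else 0) - (if y = f then sg f else 0) := by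
      intro y
      rw [root, Pi.sub_apply, Pi.single_apply, Pi.single_apply]
    change sg x * root sg e f x + sg (s x) * root sg e f (s x) = 0
    rw [h4, h4]
    have h5 := hcount e
    have h6 := hcount f
    rw [hre] at h5
    linarith
  have hC0' : ∀ z, C0 z → Δ' z = 0 := by
    intro z hz
    rw [hΔ', sub_eq_zero]
    have hw : ∀ x, Θ (φ z) x = (z : E → ℤ) x + Δ z x := by
      intro x
      rw [hΔ, Pi.sub_apply]; ring
    funext x
    change τ x * Θ (φ z) (s x) = (z : E → ℤ) x
    by_cases hb : B (r x)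
    · simp only [τ, if_pos hb]
      obtain ⟨h2, h3⟩ := hs3' x hb
      have h4 := (hB (r x) (hrid x) hb).2 z hz
      rw [hw]
      by_cases hx : r x = x
      · have hsx : r (s x) ≠ s x := by
          rw [hs1', hx]
          exact fun h => h2 h.symm
        have h5 := hΔser z _ _ (hr (s x))
        rw [hs1'] at h5
        have h6 : sg (s x) * Δ z (s x) = -(sg x * (z : E → ℤ) x) := by
          rw [← h5, h4, hx]; ring
        rw [hz _ hsx, zero_add]
        calc -(sg x * sg (s x)) * Δ z (s x) = -(sg x * (sg (s x) * Δ z (s x))) := by ring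
          _ = (sg x * sg x) * (z : E → ℤ) x := by rw [h6]; ring
          _ = _ := by rw [hsq, one_mul]
      · have hsx : s x = r x := by
          rcases h3 (r x) (hrid x) with h | h
          · exact absurd h hx
          · exact h.symm
        rw [hsx, h4, hz x hx]
        ring
    · simp only [τ, if_neg hb, one_mul, hs2' x hb]
      have h4 : ∀ z, C0 z → Δ z (r x) = 0 := not_not.1 hb
      have h5 := hΔser z _ _ (hr x)
      rw [h4 z hz, mul_zero] at h5
      have h6 : Δ z x = 0 := by
        rcases mul_eq_zero.1 h5.symm with h | h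
        · rcases hs1 x with h7 | h7 <;> rw [h7] at h <;> omega
        · exact h
      rw [hw, h6, add_zero]
  -- all cuts
  have hall : ∀ z : G.cuts, Δ' z = 0 := by
    intro z
    let w : G.cuts := ∑ e, ((z : E → ℤ) e * sg e) • ⟨root sg e (r e), G.root_mem hsg
      (fun x hx => ((hr e) x hx).symm)⟩
    have hw : Δ' w = 0 := by
      change Δ' (∑ e, _) = 0
      rw [map_sum]
      apply sum_eq_zero
      intro e _
      rw [map_smul, hr0' _ _ (fun x hx => ((hr e) x hx).symm), smul_zero]
    have hz0 : C0 (z - w) := by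
      intro f hf
      have h1 : (w : E → ℤ) f = ∑ e, ((z : E → ℤ) e * sg e) * root sg e (r e) f := by
        change ((∑ e, _ : G.cuts) : E → ℤ) f = _
        rw [AddSubmonoidClass.coe_finsetSum, Finset.sum_apply]
        rfl
      have h2 : ∀ e, root sg e (r e) f = if e = f then sg f else 0 := by
        intro e
        have h3 : f ≠ r e := by
          intro h
          apply hf
          rw [h, hrid]
        rw [root, Pi.sub_apply, Pi.single_apply, Pi.single_apply, if_neg h3, sub_zero]
        by_cases h4 : e = f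
        · subst h4; simp
        · rw [if_neg h4, if_neg (fun h => h4 h.symm)]
      rw [Submodule.coe_sub, Pi.sub_apply, h1]
      simp only [h2, mul_ite, mul_zero, sum_ite_eq', mem_univ, if_true]
      rw [mul_assoc, hsq, mul_one, sub_self]
    have h3 := hC0' _ hz0
    rw [map_sub, hw, sub_zero] at h3
    exact h3
  intro z
  have := hall z
  rw [hΔ', sub_eq_zero] at this
  exact this

variable {V' E' : Type} [Fintype V'] [Fintype E'] [DecidableEq V'] [DecidableEq E']
  (G' : Multigraph V' E')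

omit [Fintype V'] [DecidableEq E'] in
theorem exists_isometry (hG : G.Long)
    {ι : Type} [Fintype ι] (hcard : Fintype.card ι = Fintype.card E)
    (φ : (G.cuts × G'.flows) →ₗ[ℤ] (ι → ℤ))
    (hφ : ∀ a b, φ a ⬝ᵥ φ b =
      (a.1 : E → ℤ) ⬝ᵥ (b.1 : E → ℤ) + (a.2 : E' → ℤ) ⬝ᵥ (b.2 : E' → ℤ)) :
    ∃ ψ : G'.flows →ₗ[ℤ] G.flows, ∀ a b, (ψ a : E → ℤ) ⬝ᵥ (ψ b : E → ℤ) =
      (a : E' → ℤ) ⬝ᵥ (b : E' → ℤ) := by
  obtain ⟨sg, hs1, hsg⟩ := G.exists_sg hG
  obtain ⟨Θ, hΘ, hst⟩ := G.exists_standard hG hs1 hsg hcard (φ ∘ₗ LinearMap.inl ℤ _ _) (by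
    intro a b
    rw [LinearMap.comp_apply, LinearMap.comp_apply, hφ]
    simp)
  have hflow : ∀ a : G'.flows, Θ (φ (0, a)) ∈ G.flows := by
    intro a
    apply G.isFlow_of_dot
    intro x hx
    have h1 := hst ⟨x, hx⟩
    have h2 : x = Θ (φ (⟨x, hx⟩, 0)) := h1.symm
    rw [h2, hΘ, hφ]
    simp
  refine ⟨(Θ ∘ₗ φ ∘ₗ LinearMap.inr ℤ _ _).codRestrict G.flows hflow, fun a b => ?_⟩
  change Θ (φ (0, a)) ⬝ᵥ Θ (φ (0, b)) = _
  rw [hΘ, hφ]
  simp

end Multigraph

end Pool.Agent.H762.TG
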