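import Pool.Agent.H762.TG.Chains

/-!
Series classes and their root lattices in an embedding.
-/

set_option autoImplicit false

namespace Pool.Agent.H762.TG

open Finset Matrix

namespace Multigraph

variable {V E : Type} [Fintype V] [Fintype E] [DecidableEq V] [DecidableEq E] (G : Multigraph V E)

omit [Fintype V] [DecidableEq E] in
theorem series_refl (e : E) : G.Series e e := fun _ _ => Iff.rfl

/-- the equivalence relation -/
def seriesSetoid : Setoid E where
  r := G.Series
  iseqv := ⟨fun _ _ _ => Iff.rfl, fun h x hx => (h x hx).symm,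
    fun h h' x hx => (h x hx).trans (h' x hx)⟩

/-- signs: the values of a flow on a series class are equal up to these signs -/
theorem exists_sg (hG : G.Long) : ∃ sg : E → ℤ, (∀ e, sg e = 1 ∨ sg e = -1) ∧
    ∀ e f, G.Series e f → ∀ x, G.IsFlow x → sg e * x e = sg f * x f := by
  have h0 : ∀ e, ∃ u, G.IsFlow u ∧ IsUnit' u ∧ u e ≠ 0 := by
    intro e
    obtain ⟨⟨x, hx, hxe⟩, -⟩ := hG.1 e
    obtain ⟨d, hd, hc, hde⟩ := G.exists_conf hx hxe
    refine ⟨d, hd, conf_unit hc, ?_⟩
    rw [hde]
    rcases sign_cases _ hxe with ⟨-, h⟩ | ⟨-, h⟩ <;> rw [h] <;> norm_num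
  choose u hu huu hue using h0
  let r : E → E := fun e => (Quotient.mk G.seriesSetoid e).out
  have hr : ∀ e, G.Series (r e) e := fun e =>
    Quotient.exact (s := G.seriesSetoid) (Quotient.out_eq _)
  have hsq : ∀ e f, u e f ≠ 0 → u e f * u e f = 1 := by
    intro e f h
    rcases huu e f with h1 | h1 | h1
    · exact absurd h1 h
    · rw [h1]; rfl
    · rw [h1]; rfl
  have hne : ∀ e, u (r e) e ≠ 0 := fun e => by
    have := (hr e _ (hu (r e))).not
    exact this.1 (hue (r e))
  have key : ∀ e x, G.IsFlow x → u (r e) e * x e = x (r e) * u (r e) (r e) := by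
    intro e x hx
    have h1 : G.IsFlow (x - (x (r e) * u (r e) (r e)) • u (r e)) := hx.sub ((hu _).smul _)
    have h2 := (hr e _ h1).1 (by
      simp only [Pi.sub_apply, Pi.smul_apply, smul_eq_mul]
      rw [mul_assoc, hsq _ _ (hue (r e))]
      ring)
    simp only [Pi.sub_apply, Pi.smul_apply, smul_eq_mul] at h2
    have h3 : x e = x (r e) * u (r e) (r e) * u (r e) e := by linarith
    have h4 := hsq (r e) e (hne e)
    calc u (r e) e * x e = (x (r e) * u (r e) (r e)) * (u (r e) e * u (r e) e) := by
          rw [h3]; ring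
      _ = _ := by rw [h4, mul_one]
  refine ⟨fun e => u (r e) e, fun e => ?_, fun e f hef x hx => ?_⟩
  · rcases huu (r e) e with h1 | h1 | h1
    · exact absurd h1 (hne e)
    · left; exact h1
    · right; exact h1
  · have hre : r e = r f := by
      change (Quotient.mk G.seriesSetoid e).out = (Quotient.mk G.seriesSetoid f).out
      rw [Quotient.sound (s := G.seriesSetoid) hef]
    change u (r e) e * x e = u (r f) f * x f
    rw [key e x hx, key f x hx, hre]

omit [Fintype V] [Fintype E] [DecidableEq V] G in
/-- a root -/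
def root (sg : E → ℤ) (e f : E) : E → ℤ := Pi.single e (sg e) - Pi.single f (sg f)

omit [Fintype V] [DecidableEq V] G in
theorem root_dot (sg : E → ℤ) (e f : E) (x : E → ℤ) :
    root sg e f ⬝ᵥ x = sg e * x e - sg f * x f := by
  rw [root, sub_dotProduct, single_dotProduct, single_dotProduct]

omit [Fintype V] in
theorem root_mem {sg : E → ℤ}
    (hsg : ∀ e f, G.Series e f → ∀ x, G.IsFlow x → sg e * x e = sg f * x f) {e f : E}
    (h : G.Series e f) : root sg e f ∈ G.cuts := by
  apply G.mem_cuts_of_dot
  intro z hz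
  rw [root_dot, hsg e f h z hz, sub_self]

omit [Fintype V] [Fintype E] [DecidableEq V] G in
theorem root_add (sg : E → ℤ) (e f g : E) : root sg e f + root sg f g = root sg e g := by
  simp only [root]
  abel

omit [Fintype V] [DecidableEq E] in
theorem card_class (e : E) [DecidableEq (Quotient G.seriesSetoid)] :
    {f | G.Series e f}.ncard =
      Fintype.card {f : E // (Quotient.mk G.seriesSetoid f) = Quotient.mk G.seriesSetoid e} := by
  have h1 : {f | G.Series e f} =
      {f : E | (Quotient.mk G.seriesSetoid f) = Quotient.mk G.seriesSetoid e} := by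
    ext f
    constructor
    · intro h
      exact (Quotient.sound (s := G.seriesSetoid) h).symm
    · intro h
      exact fun x hx => ((Quotient.exact (s := G.seriesSetoid) h : G.Series f e) x hx).symm
  rw [h1, ← Nat.card_coe_set_eq, Nat.card_eq_fintype_card]
  rfl

omit [Fintype V] [Fintype E] [DecidableEq V] G in
theorem root_apply_self (sg : E → ℤ) {e f : E} (h : e ≠ f) : root sg e f e = sg e := by
  rw [root, Pi.sub_apply, Pi.single_eq_same, Pi.single_eq_of_ne h, sub_zero]

omit [Fintype V] [Fintype E] [DecidableEq V] G in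
theorem root_apply_right (sg : E → ℤ) {e f : E} (h : e ≠ f) : root sg e f f = -sg f := by
  rw [root, Pi.sub_apply, Pi.single_eq_same, Pi.single_eq_of_ne h.symm, zero_sub]

omit [Fintype V] [Fintype E] [DecidableEq V] G in
theorem root_apply_ne (sg : E → ℤ) {e f g : E} (h : g ≠ e) (h' : g ≠ f) : root sg e f g = 0 := by
  rw [root, Pi.sub_apply, Pi.single_eq_of_ne h, Pi.single_eq_of_ne h', sub_zero]

omit [Fintype V] in
/-- In an isometric embedding of the lattice of cuts the root lattices of the series classes are
the standard ones. -/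
theorem exists_coords (hG : G.Long) {sg : E → ℤ} (hs1 : ∀ e, sg e = 1 ∨ sg e = -1)
    (hsg : ∀ e f, G.Series e f → ∀ x, G.IsFlow x → sg e * x e = sg f * x f)
    {ι : Type} [Fintype ι] [DecidableEq ι] (φ : G.cuts →ₗ[ℤ] (ι → ℤ))
    (hφ : ∀ a b, φ a ⬝ᵥ φ b = (a : E → ℤ) ⬝ᵥ (b : E → ℤ)) :
    ∃ (b : E → ι) (ε : E → ℤ), Function.Injective b ∧ (∀ e, ε e = 1 ∨ ε e = -1) ∧
      ∀ e f (h : G.Series e f), φ ⟨root sg e f, G.root_mem hsg h⟩ =
        Pi.single (b e) (ε e) - Pi.single (b f) (ε f) := by
  classical
  let J := Quotient G.seriesSetoid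
  let cl : E → J := Quotient.mk G.seriesSetoid
  let q : J → ℕ := fun j => Fintype.card {f : E // cl f = j}
  have hqe : ∀ e, 2 ≤ q (cl e) := by
    intro e
    obtain ⟨-, h3⟩ := hG.1 e
    rw [G.card_class e] at h3
    exact h3
  have hq : ∀ j, 2 ≤ q j := by
    intro j
    obtain ⟨e, rfl⟩ := Quotient.exists_rep j
    exact hqe e
  let en : ∀ j, Fin (q j) ≃ {f : E // cl f = j} := fun j => (Fintype.equivFin _).symm
  let c : J → ℕ → E := fun j s => if h : s < q j then (en j ⟨s, h⟩).1 else j.out
  have hc : ∀ j s (h : s < q j), c j s = (en j ⟨s, h⟩).1 := fun j s h => dif_pos h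
  have hcl : ∀ j s, cl (c j s) = j := by
    intro j s
    by_cases h : s < q j
    · rw [hc j s h]; exact (en j ⟨s, h⟩).2
    · have : c j s = j.out := dif_neg h
      rw [this]
      exact Quotient.out_eq j
  have hser : ∀ j s r, G.Series (c j s) (c j r) := fun j s r =>
    Quotient.exact (s := G.seriesSetoid) ((hcl j s).trans (hcl j r).symm)
  have hinj : ∀ j s r, s < q j → r < q j → c j s = c j r → s = r := by
    intro j s r hs hr h
    rw [hc j s hs, hc j r hr] at h
    have := (en j).injective (Subtype.ext h)
    exact congrArg Fin.val this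
  have hne : ∀ j l s r, j ≠ l → c j s ≠ c l r := by
    intro j l s r h h'
    apply h
    rw [← hcl j s, ← hcl l r, h']
  let v : J → ℕ → ι → ℤ := fun j s => φ ⟨root sg (c j s) (c j (s + 1)), G.root_mem hsg (hser j _ _)⟩
  have hvdot : ∀ j l s r, v j s ⬝ᵥ v l r =
      root sg (c j s) (c j (s + 1)) ⬝ᵥ root sg (c l r) (c l (r + 1)) := fun j l s r => hφ _ _
  have hsq : ∀ e, sg e * sg e = 1 := fun e => by rcases hs1 e with h | h <;> rw [h] <;> rfl
  -- the classes as finite sets
  have hcls : ∀ j, (univ.filter fun e => cl e = j) = (range (q j)).image (c j) := by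
    intro j
    ext e
    simp only [mem_filter, mem_univ, true_and, mem_image, mem_range]
    constructor
    · intro he
      refine ⟨((en j).symm ⟨e, he⟩ : Fin (q j)), Fin.is_lt _, ?_⟩
      rw [hc _ _ (Fin.is_lt _)]
      change ((en j) ((en j).symm ⟨e, he⟩)).1 = e
      rw [Equiv.apply_symm_apply]
    · rintro ⟨s, -, rfl⟩
      exact hcl j s
  have hsumc : ∀ j (z : E → ℤ), ∑ e with cl e = j, z e = ∑ s ∈ range (q j), z (c j s) := by
    intro j z
    rw [hcls, sum_image]
    intro s hs r hr h
    exact hinj j s r (mem_range.1 hs) (mem_range.1 hr) h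
  have hdotr : ∀ (z : G.cuts) j s, φ z ⬝ᵥ v j s =
      sg (c j s) * (z : E → ℤ) (c j s) - sg (c j (s + 1)) * (z : E → ℤ) (c j (s + 1)) := by
    intro z j s
    change φ z ⬝ᵥ φ _ = _
    rw [hφ, dotProduct_comm]
    exact root_dot sg _ _ _
  obtain ⟨b, ε, hg, hb⟩ := chains (q := q) (v := v) hq
    (by
      intro j s hs
      have h1 : c j s ≠ c j (s + 1) := fun h => by
        have := hinj j _ _ (by omega) (by omega) h
        omega
      rw [hvdot, root_dot, root_apply_self sg h1, root_apply_right sg h1]
      have := hsq (c j s)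
      have := hsq (c j (s + 1))
      linarith)
    (by
      intro j s hs
      have h1 : c j s ≠ c j (s + 1) := fun h => by
        have := hinj j _ _ (by omega) (by omega) h
        omega
      have h2 : c j s ≠ c j (s + 1 + 1) := fun h => by
        have := hinj j _ _ (by omega) (by omega) h
        omega
      have h3 : c j (s + 1) ≠ c j (s + 1 + 1) := fun h => by
        have := hinj j _ _ (by omega) (by omega) h
        omega
      rw [hvdot, root_dot, root_apply_ne sg h1 h2, root_apply_self sg h3]
      have := hsq (c j (s + 1))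
      linarith)
    (by
      intro j s r hsr hr
      have h1 : ∀ a b, a < b → b < q j → c j a ≠ c j b := fun a b hab hb h => by
        have := hinj j _ _ (by omega) (by omega) h
        omega
      rw [hvdot, root_dot, root_apply_ne sg (h1 _ _ (by omega) (by omega))
        (h1 _ _ (by omega) (by omega)), root_apply_ne sg (h1 _ _ (by omega) (by omega))
        (h1 _ _ (by omega) (by omega))]
      ring)
    (by
      intro j l s r hjl _ _
      rw [hvdot, root_dot, root_apply_ne sg (hne _ _ _ _ hjl) (hne _ _ _ _ hjl),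
        root_apply_ne sg (hne _ _ _ _ hjl) (hne _ _ _ _ hjl)]
      ring)
    (by
      intro j hj
      obtain ⟨z, hz, hodd⟩ := hG.2 (univ.filter fun e => cl e = j) (by
        rw [← Fintype.card_subtype]; exact hj) (by
        intro e he f hef
        rw [mem_filter] at he ⊢
        refine ⟨mem_univ _, ?_⟩
        rw [← he.2]
        exact (Quotient.sound (s := G.seriesSetoid) hef).symm)
      refine ⟨φ ⟨z, hz⟩, ?_⟩
      rw [hdotr, hdotr]
      rw [hsumc, hj, sum_range_succ, sum_range_succ, sum_range_succ, sum_range_one] at hodd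
      obtain ⟨k, hk⟩ := hodd
      simp only [zero_add, Nat.reduceAdd]
      rw [← Int.not_even_iff_odd]
      rintro ⟨m, hm⟩
      rcases hs1 (c j 0) with h0 | h0 <;> rcases hs1 (c j 1) with h1 | h1 <;>
        rcases hs1 (c j 2) with h2 | h2 <;> rcases hs1 (c j 3) with h3 | h3 <;>
        rw [h0, h1, h2, h3] at hm <;> omega)
    (by
      intro j l hjl hj hl
      have hdisj : Disjoint (univ.filter fun e => cl e = j) (univ.filter fun e => cl e = l) := by
        rw [disjoint_filter]
        intro e _ h1 h2
        exact hjl (h1.symm.trans h2)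
      obtain ⟨z, hz, hodd⟩ := hG.2
        ((univ.filter fun e => cl e = j) ∪ (univ.filter fun e => cl e = l)) (by
          rw [card_union_of_disjoint hdisj, ← Fintype.card_subtype, ← Fintype.card_subtype]
          change q j + q l = 4
          omega) (by
        intro e he f hef
        have hef' : cl f = cl e := (Quotient.sound (s := G.seriesSetoid) hef).symm
        rw [mem_union, mem_filter, mem_filter] at he ⊢
        rw [hef']
        simpa using he)
      refine ⟨φ ⟨z, hz⟩, ?_⟩
      rw [hdotr, hdotr]
      rw [sum_union hdisj, hsumc, hsumc, hj, hl, sum_range_succ, sum_range_one, sum_range_succ,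
        sum_range_one] at hodd
      obtain ⟨k, hk⟩ := hodd
      simp only [zero_add]
      rw [← Int.not_even_iff_odd]
      rintro ⟨m, hm⟩
      rcases hs1 (c j 0) with h0 | h0 <;> rcases hs1 (c j 1) with h1 | h1 <;>
        rcases hs1 (c l 0) with h2 | h2 <;> rcases hs1 (c l 1) with h3 | h3 <;>
        rw [h0, h1, h2, h3] at hm <;> omega)
  -- the index of an edge in its class
  let ix : E → ℕ := fun e => ((en (cl e)).symm ⟨e, rfl⟩ : Fin (q (cl e)))
  have hix : ∀ e, ix e < q (cl e) := fun e => Fin.is_lt _
  have hcix : ∀ e, c (cl e) (ix e) = e := by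
    intro e
    rw [hc _ _ (hix e)]
    change ((en (cl e)) ((en (cl e)).symm ⟨e, rfl⟩)).1 = e
    rw [Equiv.apply_symm_apply]
  -- the formula for all pairs
  have hstart : ∀ j s, s < q j → φ ⟨root sg (c j 0) (c j s), G.root_mem hsg (hser j _ _)⟩ =
      Pi.single (b j 0) (ε j 0) - Pi.single (b j s) (ε j s) := by
    intro j s
    induction s with
    | zero =>
      intro _
      have : (⟨root sg (c j 0) (c j 0), G.root_mem hsg (hser j _ _)⟩ : G.cuts) = 0 := by
        apply Subtype.ext
        simp [root]
      rw [this, map_zero, sub_self]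
    | succ s ih =>
      intro hs
      have h1 : (⟨root sg (c j 0) (c j (s + 1)), G.root_mem hsg (hser j _ _)⟩ : G.cuts) =
          ⟨root sg (c j 0) (c j s), G.root_mem hsg (hser j _ _)⟩ +
          ⟨root sg (c j s) (c j (s + 1)), G.root_mem hsg (hser j _ _)⟩ := by
        apply Subtype.ext
        exact (root_add sg _ _ _).symm
      rw [h1, map_add, ih (by omega)]
      have h2 := (hg j).2.2 s (by omega)
      change v j s = _ at h2
      change _ + v j s = _
      rw [h2]
      abel
  refine ⟨fun e => b (cl e) (ix e), fun e => ε (cl e) (ix e), ?_, ?_, ?_⟩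
  · intro e f hef
    have h1 := hb _ _ _ _ (hix e) (hix f) hef
    rw [← hcix e, ← hcix f, h1.1, h1.2]
  · intro e
    have := hix e
    exact (hg (cl e)).1 _ (by omega)
  · intro e f h
    have hcf : cl e = cl f := Quotient.sound (s := G.seriesSetoid) h
    have h1 : (⟨root sg e f, G.root_mem hsg h⟩ : G.cuts) =
        ⟨root sg (c (cl e) 0) (c (cl e) (ix f)), G.root_mem hsg (hser _ _ _)⟩ -
        ⟨root sg (c (cl e) 0) (c (cl e) (ix e)), G.root_mem hsg (hser _ _ _)⟩ := by
      apply Subtype.ext
      change root sg e f = root sg (c (cl e) 0) (c (cl e) (ix f)) -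
        root sg (c (cl e) 0) (c (cl e) (ix e))
      rw [hcix e]
      have h2 : c (cl e) (ix f) = f := by rw [hcf, hcix f]
      rw [h2]
      simp only [root]
      abel
    have hixf : ix f < q (cl e) := by rw [hcf]; exact hix f
    rw [h1, map_sub, hstart _ _ hixf, hstart _ _ (hix e)]
    change _ = (Pi.single (b (cl e) (ix e)) (ε (cl e) (ix e)) : ι → ℤ) -
      (Pi.single (b (cl f) (ix f)) (ε (cl f) (ix f)) : ι → ℤ)
    rw [← hcf]
    abel

end Multigraph

end Pool.Agent.H762.TG
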