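import Pool.Agent.H762.TG.Iso

/-!
The lattice of flows determines the graph up to 2-isomorphism (the Torelli theorem for graphs).
-/

set_option autoImplicit false

namespace Pool.Agent.H762.TG

open Finset Matrix

/-- the nontrivial character of `ℤ/2` -/
def chi (a : ZMod 2) : ℤ := if a = 0 then 1 else -1

theorem chi_add (a b : ZMod 2) : chi (a + b) = chi a * chi b := by
  revert a b
  unfold chi
  decide

theorem zmod_add_self (a : ZMod 2) : a + a = 0 := by revert a; decide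

theorem chi_add_one (a : ZMod 2) : chi (a + 1) = -chi a := by
  revert a
  unfold chi
  decide

theorem sum_chi {r : ℕ} (μ : Fin r → ZMod 2) (h : μ ≠ 0) :
    ∑ n : Fin r → ZMod 2, chi (n ⬝ᵥ μ) = 0 := by
  obtain ⟨i, hi⟩ : ∃ i, μ i ≠ 0 := by
    by_contra hcon
    push Not at hcon
    exact h (funext hcon)
  have hi1 : μ i = 1 := by
    have : ∀ a : ZMod 2, a ≠ 0 → a = 1 := by decide
    exact this _ hi
  have h1 : ∑ n : Fin r → ZMod 2, chi (n ⬝ᵥ μ) =
      ∑ n : Fin r → ZMod 2, chi ((n + Pi.single i 1) ⬝ᵥ μ) :=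
    (Equiv.sum_comp (Equiv.addRight (Pi.single i 1)) fun n : Fin r → ZMod 2 => chi (n ⬝ᵥ μ)).symm
  have h2 : ∀ n : Fin r → ZMod 2, chi ((n + Pi.single i 1) ⬝ᵥ μ) = -chi (n ⬝ᵥ μ) := by
    intro n
    rw [add_dotProduct, single_dotProduct, one_mul, hi1, chi_add_one]
  simp only [h2, sum_neg_distrib] at h1
  linarith

theorem sum_chi_mul {r : ℕ} {E : Type} [Fintype E] (l : E → Fin r → ZMod 2)
    (μ : Fin r → ZMod 2) : ∑ n : Fin r → ZMod 2, chi (n ⬝ᵥ μ) * ∑ e, chi (n ⬝ᵥ l e) =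
      (2 : ℤ) ^ r * (Fintype.card {e // l e = μ} : ℤ) := by
  classical
  simp only [mul_sum, ← chi_add, ← dotProduct_add]
  rw [sum_comm]
  have h1 : ∀ e, ∑ n : Fin r → ZMod 2, chi (n ⬝ᵥ (μ + l e)) = if l e = μ then (2 : ℤ) ^ r else 0 := by
    intro e
    split_ifs with h
    · have h2 : μ + l e = 0 := by
        funext i
        rw [h]
        exact zmod_add_self _
      rw [h2]
      simp [chi]
    · apply sum_chi
      intro h2
      apply h
      funext i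
      have h3 := congrFun h2 i
      rw [Pi.add_apply, Pi.zero_apply] at h3
      have : ∀ a b : ZMod 2, a + b = 0 → b = a := by decide
      exact this _ _ h3
  rw [sum_congr rfl fun e _ => h1 e, ← sum_filter, sum_const, nsmul_eq_mul, mul_comm,
    Fintype.card_subtype]

/-- two families of nonzero functionals with the same weights are the same -/
theorem fibres {r : ℕ} {E E' : Type} [Fintype E] [Fintype E'] (l : E → Fin r → ZMod 2)
    (l' : E' → Fin r → ZMod 2) (h0 : ∀ e, l e ≠ 0) (h0' : ∀ e, l' e ≠ 0)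
    (hw : ∀ n : Fin r → ZMod 2, Fintype.card {e // n ⬝ᵥ l e ≠ 0} =
      Fintype.card {e // n ⬝ᵥ l' e ≠ 0}) (μ : Fin r → ZMod 2) :
    Fintype.card {e // l e = μ} = Fintype.card {e // l' e = μ} := by
  classical
  have key : ∀ {F : Type} [Fintype F] (m : F → Fin r → ZMod 2) (n : Fin r → ZMod 2),
      ∑ e, chi (n ⬝ᵥ m e) = (Fintype.card F : ℤ) - 2 * (Fintype.card {e // n ⬝ᵥ m e ≠ 0} : ℤ) := by
    intro F _ m n
    have h1 : ∀ e, chi (n ⬝ᵥ m e) = 1 - 2 * if n ⬝ᵥ m e ≠ 0 then (1 : ℤ) else 0 := by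
      intro e
      unfold chi
      by_cases h : n ⬝ᵥ m e = 0
      · rw [if_pos h, if_neg (by simpa using h)]; ring
      · rw [if_neg h, if_pos h]; ring
    rw [sum_congr rfl fun e _ => h1 e, sum_sub_distrib, ← mul_sum, ← sum_filter, sum_const,
      sum_const, Fintype.card_subtype]
    simp
  have hpow : (2 : ℤ) ^ r ≠ 0 := by positivity
  -- the numbers of edges agree
  have hzero : ∀ {F : Type} [Fintype F] (m : F → Fin r → ZMod 2), (∀ e, m e ≠ 0) →
      ∑ n : Fin r → ZMod 2, ∑ e, chi (n ⬝ᵥ m e) = 0 := by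
    intro F _ m hm
    rw [sum_comm]
    exact sum_eq_zero fun e _ => sum_chi _ (hm e)
  have hcard : (Fintype.card E : ℤ) = Fintype.card E' := by
    have h1 := hzero l h0
    have h2 := hzero l' h0'
    simp only [key, sum_sub_distrib, sum_const] at h1 h2
    have h3 : ∑ n : Fin r → ZMod 2, 2 * (Fintype.card {e // n ⬝ᵥ l e ≠ 0} : ℤ) =
        ∑ n : Fin r → ZMod 2, 2 * (Fintype.card {e // n ⬝ᵥ l' e ≠ 0} : ℤ) :=
      sum_congr rfl fun n _ => by rw [hw n]
    rw [h3] at h1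
    have h4 : (Finset.univ : Finset (Fin r → ZMod 2)).card • (Fintype.card E : ℤ) =
        (Finset.univ : Finset (Fin r → ZMod 2)).card • (Fintype.card E' : ℤ) := by linarith
    have h5 : ((Finset.univ : Finset (Fin r → ZMod 2)).card : ℤ) ≠ 0 := by
      rw [card_univ]
      simp
    rw [nsmul_eq_mul, nsmul_eq_mul] at h4
    exact mul_left_cancel₀ h5 h4
  have h1 := sum_chi_mul l μ
  have h2 := sum_chi_mul l' μ
  have h3 : ∀ n, ∑ e, chi (n ⬝ᵥ l e) = ∑ e, chi (n ⬝ᵥ l' e) := by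
    intro n
    rw [key, key, hw n, hcard]
  simp only [h3] at h1
  rw [h1] at h2
  exact_mod_cast mul_left_cancel₀ hpow h2

/-- An isometric endomorphism of a sublattice of the standard lattice is surjective. -/
theorem surj_endo {E : Type} [Fintype E] (L : Submodule ℤ (E → ℤ)) (θ : L →ₗ[ℤ] L)
    (hθ : ∀ x y : L, (θ x : E → ℤ) ⬝ᵥ (θ y : E → ℤ) = (x : E → ℤ) ⬝ᵥ (y : E → ℤ)) :
    Function.Surjective θ := by
  intro y
  set n := (y : E → ℤ) ⬝ᵥ (y : E → ℤ) with hn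
  let S : Set L := {x | (x : E → ℤ) ⬝ᵥ (x : E → ℤ) = n}
  have hfin : S.Finite := by
    have h1 : (Set.pi Set.univ fun _ : E => Set.Icc (-n) n).Finite :=
      Set.Finite.pi fun _ => Set.finite_Icc _ _
    apply Set.Finite.of_finite_image (f := fun x : L => (x : E → ℤ)) _
      (Subtype.val_injective.injOn)
    apply h1.subset
    rintro _ ⟨x, hx, rfl⟩
    rw [Set.mem_pi]
    intro j _
    have h2 : (x : E → ℤ) j ^ 2 ≤ n := by
      rw [← show (x : E → ℤ) ⬝ᵥ (x : E → ℤ) = n from hx, dot_self]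
      exact single_le_sum (f := fun j => (x : E → ℤ) j ^ 2) (fun i _ => sq_nonneg _) (mem_univ j)
    rw [Set.mem_Icc]
    constructor <;> nlinarith [Int.le_self_sq ((x : E → ℤ) j), Int.le_self_sq (-(x : E → ℤ) j)]
  have hmaps : ∀ x : S, θ x ∈ S := fun x => by
    change _ = n
    rw [hθ]
    exact x.2
  let g : S → S := fun x => ⟨θ x, hmaps x⟩
  have hinj : Function.Injective g := by
    intro x x' h
    have h1 : θ x = θ x' := congrArg Subtype.val h
    have h2 : (((x : L) - x' : L) : E → ℤ) ⬝ᵥ (((x : L) - x' : L) : E → ℤ) = 0 := by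
      rw [← hθ, map_sub, h1, sub_self]
      simp
    have h3 := eq_zero_of_dot h2
    apply Subtype.ext
    have h4 : ((x : L) - x' : L) = 0 := Subtype.ext h3
    exact sub_eq_zero.1 h4
  have : Finite S := hfin
  obtain ⟨x, hx⟩ := Finite.surjective_of_injective hinj ⟨y, rfl⟩
  exact ⟨x, congrArg Subtype.val hx⟩

namespace Multigraph

variable {V E V' E' : Type} [Fintype V] [Fintype E] [DecidableEq V] [DecidableEq E]
  [Fintype V'] [Fintype E'] [DecidableEq V'] [DecidableEq E']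

/-- the number of odd values -/
def wt {E : Type} [Fintype E] (x : E → ℤ) : ℕ := Fintype.card {e // ((x e : ℤ) : ZMod 2) ≠ 0}

omit [DecidableEq E] in
theorem wt_eq (x : E → ℤ) : (wt x : ℤ) = ∑ e, if ((x e : ℤ) : ZMod 2) ≠ 0 then (1 : ℤ) else 0 := by
  rw [← sum_filter, sum_const, nsmul_eq_mul, mul_one, wt, Fintype.card_subtype]

theorem cast_ne_zero {a : ℤ} (h : ((a : ℤ) : ZMod 2) ≠ 0) : 1 ≤ a ^ 2 := by
  have : a ≠ 0 := by
    rintro rfl
    exact h (by simp)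
  have := sq_nonneg (|a| - 1)
  have h1 : 1 ≤ |a| := Int.one_le_abs ‹a ≠ 0›
  rw [← sq_abs]
  nlinarith

omit [DecidableEq E] in
theorem wt_le (x z : E → ℤ) : (wt x : ℤ) ≤ (x + (2 : ℤ) • z) ⬝ᵥ (x + (2 : ℤ) • z) := by
  rw [wt_eq, dot_self]
  apply sum_le_sum
  intro e _
  split_ifs with h
  · apply cast_ne_zero
    simp only [Pi.add_apply, Pi.smul_apply, smul_eq_mul, Int.cast_add, Int.cast_mul]
    have : ((2 : ℤ) : ZMod 2) = 0 := by decide
    rw [this, zero_mul, add_zero]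
    exact h
  · exact sq_nonneg _

theorem exists_wt (G : Multigraph V E) {x : E → ℤ} (hx : G.IsFlow x) :
    ∃ z, G.IsFlow z ∧ (x + (2 : ℤ) • z) ⬝ᵥ (x + (2 : ℤ) • z) = wt x := by
  obtain ⟨u, z, hu, hz, he, hun⟩ := G.exists_unit_mod_two _ x hx le_rfl
  refine ⟨-z, hz.neg, ?_⟩
  have h1 : x + (2 : ℤ) • (-z) = u := by rw [he]; simp
  rw [h1, wt_eq, dot_self]
  apply sum_congr rfl
  intro e _
  have h2 : ((x e : ℤ) : ZMod 2) = ((u e : ℤ) : ZMod 2) := by
    rw [he]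
    simp only [Pi.add_apply, Pi.smul_apply, smul_eq_mul, Int.cast_add, Int.cast_mul]
    have : ((2 : ℤ) : ZMod 2) = 0 := by decide
    rw [this, zero_mul, add_zero]
  rw [h2]
  rcases hun e with h | h | h
  · rw [h, if_neg (by simp)]; rfl
  · rw [h, if_pos (by decide)]; rfl
  · rw [h, if_pos (by decide)]; rfl

/-- The Torelli theorem for graphs without bridges. -/
theorem torelli (G : Multigraph V E) (G' : Multigraph V' E') (hG : ∀ e, ∃ x, G.IsFlow x ∧ x e ≠ 0)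
    (hG' : ∀ e, ∃ x, G'.IsFlow x ∧ x e ≠ 0) (ψ : G'.flows →ₗ[ℤ] G.flows)
    (hψ : ∀ a b, (ψ a : E → ℤ) ⬝ᵥ (ψ b : E → ℤ) = (a : E' → ℤ) ⬝ᵥ (b : E' → ℤ))
    (hsurj : Function.Surjective ψ) :
    ∃ (σ : E ≃ E') (η : E → ℤˣ), ∀ (x : G'.flows) (e : E),
      (ψ x : E → ℤ) e = η e * (x : E' → ℤ) (σ e) := by
  classical
  -- unit flows through all edges
  have hun : ∀ {V E : Type} [Fintype V] [Fintype E] [DecidableEq V] [DecidableEq E]
      (G : Multigraph V E), (∀ e, ∃ x, G.IsFlow x ∧ x e ≠ 0) →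
      ∀ e, ∃ u, G.IsFlow u ∧ IsUnit' u ∧ u e ≠ 0 := by
    intro V E _ _ _ _ G hG e
    obtain ⟨x, hx, hxe⟩ := hG e
    obtain ⟨d, hd, hc, hde⟩ := G.exists_conf hx hxe
    refine ⟨d, hd, conf_unit hc, ?_⟩
    rw [hde]
    rcases sign_cases _ hxe with ⟨-, h⟩ | ⟨-, h⟩ <;> rw [h] <;> norm_num
  have hodd : ∀ {E : Type} {u : E → ℤ} (_ : IsUnit' u) {e : E} (_ : u e ≠ 0),
      ((u e : ℤ) : ZMod 2) ≠ 0 := by
    intro E u hu e he
    rcases hu e with h | h | h
    · exact absurd h he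
    · rw [h]; decide
    · rw [h]; decide
  -- weights
  have hwt : ∀ x : G'.flows, wt (ψ x : E → ℤ) = wt (x : E' → ℤ) := by
    intro x
    apply le_antisymm
    · obtain ⟨z, hz, hw⟩ := G'.exists_wt x.2
      have h1 := wt_le (ψ x : E → ℤ) (ψ ⟨z, hz⟩ : E → ℤ)
      have h2 : (ψ x : E → ℤ) + (2 : ℤ) • (ψ ⟨z, hz⟩ : E → ℤ) =
          (ψ (x + (2 : ℤ) • ⟨z, hz⟩) : E → ℤ) := by
        rw [map_add, map_smul]; rfl
      rw [h2, hψ] at h1
      change (wt (ψ x : E → ℤ) : ℤ) ≤ ((x : E' → ℤ) + (2 : ℤ) • z) ⬝ᵥ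
        ((x : E' → ℤ) + (2 : ℤ) • z) at h1
      rw [hw] at h1
      exact_mod_cast h1
    · obtain ⟨z, hz, hw⟩ := G.exists_wt (ψ x).2
      obtain ⟨z', hz'⟩ := hsurj ⟨z, hz⟩
      have h1 := wt_le (x : E' → ℤ) (z' : E' → ℤ)
      have h2 : (x : E' → ℤ) + (2 : ℤ) • (z' : E' → ℤ) = ((x + (2 : ℤ) • z' : G'.flows) : E' → ℤ) :=
        rfl
      rw [h2, ← hψ, map_add, map_smul, hz'] at h1
      change (wt (x : E' → ℤ) : ℤ) ≤ ((ψ x : E → ℤ) + (2 : ℤ) • z) ⬝ᵥ
        ((ψ x : E → ℤ) + (2 : ℤ) • z) at h1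
      rw [hw] at h1
      exact_mod_cast h1
  -- a basis
  let b := Module.finBasis ℤ G'.flows
  set r := Module.finrank ℤ G'.flows with hr
  let l : E → Fin r → ZMod 2 := fun e i => (((ψ (b i) : E → ℤ) e : ℤ) : ZMod 2)
  let l' : E' → Fin r → ZMod 2 := fun e i => ((((b i : G'.flows) : E' → ℤ) e : ℤ) : ZMod 2)
  have hexp' : ∀ (x : G'.flows) (e : E'), (((x : E' → ℤ) e : ℤ) : ZMod 2) =
      (fun i => ((b.repr x i : ℤ) : ZMod 2)) ⬝ᵥ l' e := by
    intro x e
    have h1 : (x : E' → ℤ) e = ∑ i, b.repr x i * ((b i : G'.flows) : E' → ℤ) e := by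
      conv_lhs => rw [← b.sum_repr x]
      rw [AddSubmonoidClass.coe_finsetSum, Finset.sum_apply]
      rfl
    rw [h1, Int.cast_sum, dotProduct]
    apply sum_congr rfl
    intro i _
    rw [Int.cast_mul]
  have hexp : ∀ (x : G'.flows) (e : E), (((ψ x : E → ℤ) e : ℤ) : ZMod 2) =
      (fun i => ((b.repr x i : ℤ) : ZMod 2)) ⬝ᵥ l e := by
    intro x e
    have h1 : (ψ x : E → ℤ) e = ∑ i, b.repr x i * (ψ (b i) : E → ℤ) e := by
      conv_lhs => rw [← b.sum_repr x]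
      rw [map_sum, AddSubmonoidClass.coe_finsetSum, Finset.sum_apply]
      apply sum_congr rfl
      intro i _
      rw [map_smul]
      rfl
    rw [h1, Int.cast_sum, dotProduct]
    apply sum_congr rfl
    intro i _
    rw [Int.cast_mul]
  have hl0 : ∀ e, l e ≠ 0 := by
    intro e he
    obtain ⟨u, hu, huu, hue⟩ := hun G hG e
    obtain ⟨x, hx⟩ := hsurj ⟨u, hu⟩
    have h1 := hexp x e
    rw [hx, he, dotProduct_zero] at h1
    exact hodd huu hue h1
  have hl0' : ∀ e, l' e ≠ 0 := by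
    intro e he
    obtain ⟨u, hu, huu, hue⟩ := hun G' hG' e
    have h1 := hexp' ⟨u, hu⟩ e
    rw [he, dotProduct_zero] at h1
    exact hodd huu hue h1
  have hw : ∀ n : Fin r → ZMod 2, Fintype.card {e // n ⬝ᵥ l e ≠ 0} =
      Fintype.card {e // n ⬝ᵥ l' e ≠ 0} := by
    intro n
    let x : G'.flows := ∑ i, ((n i).val : ℤ) • b i
    have hx : (fun i => ((b.repr x i : ℤ) : ZMod 2)) = n := by
      funext i
      have : b.repr x i = ((n i).val : ℤ) := by
        simp only [x, map_sum, map_smul, Module.Basis.repr_self, Finsupp.coe_finsetSum,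
          Finset.sum_apply, Finsupp.smul_apply, smul_eq_mul, Finsupp.single_apply]
        simp
      rw [this]
      simp
    have h1 := hwt x
    unfold wt at h1
    simp only [hexp, hexp', hx] at h1
    exact h1
  have hfib := fibres l l' hl0 hl0' hw
  choose g _ using fun μ => (⟨Fintype.equivOfCardEq (hfib μ), trivial⟩ :
    ∃ _ : {e // l e = μ} ≃ {e // l' e = μ}, True)
  let σ : E ≃ E' := (Equiv.sigmaFiberEquiv l).symm.trans
    ((Equiv.sigmaCongrRight g).trans (Equiv.sigmaFiberEquiv l'))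
  have hσ : ∀ e, l' (σ e) = l e := fun e => (g (l e) ⟨e, rfl⟩).2
  -- parities
  have hpar : ∀ (x : G'.flows) e, (((ψ x : E → ℤ) e : ℤ) : ZMod 2) =
      (((x : E' → ℤ) (σ e) : ℤ) : ZMod 2) := by
    intro x e
    rw [hexp, hexp', hσ]
  -- squares, for unit flows
  have hsqr : ∀ x : G'.flows, IsUnit' (x : E' → ℤ) → ∀ e,
      (ψ x : E → ℤ) e ^ 2 = (x : E' → ℤ) (σ e) ^ 2 := by
    intro x hx
    have h1 := hψ x x
    rw [dot_self, dot_self, ← σ.sum_comp] at h1
    have h2 : ∀ e ∈ univ, (x : E' → ℤ) (σ e) ^ 2 ≤ (ψ x : E → ℤ) e ^ 2 := by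
      intro e _
      by_cases h3 : (x : E' → ℤ) (σ e) = 0
      · rw [h3]; positivity
      · have h4 := hodd hx h3
        rw [← hpar] at h4
        have h5 := cast_ne_zero h4
        rcases hx (σ e) with h | h | h
        · exact absurd h h3
        · rw [h]; linarith
        · rw [h]; linarith
    have h3 := (sum_eq_sum_iff_of_le h2).1 h1.symm
    exact fun e => (h3 e (mem_univ e)).symm
  -- zeros
  have hzero : ∀ (x : G'.flows) e, (x : E' → ℤ) (σ e) = 0 → (ψ x : E → ℤ) e = 0 := by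
    intro x e he
    have h1 := G'.flow_mem_span _ x x.2 le_rfl
    let K : Submodule ℤ G'.flows := LinearMap.ker
      ((LinearMap.proj e : (E → ℤ) →ₗ[ℤ] ℤ) ∘ₗ G.flows.subtype ∘ₗ ψ)
    have h2 : (x : E' → ℤ) ∈ K.map G'.flows.subtype := by
      refine (Submodule.span_le.2 ?_) h1
      rintro d ⟨hd, hdu, hdv⟩
      refine ⟨⟨d, hd⟩, ?_, rfl⟩
      rw [SetLike.mem_coe, LinearMap.mem_ker]
      change (ψ ⟨d, hd⟩ : E → ℤ) e = 0
      have h3 := hsqr ⟨d, hd⟩ hdu e
      have h4 : d (σ e) = 0 := hdv _ he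
      change (ψ ⟨d, hd⟩ : E → ℤ) e ^ 2 = d (σ e) ^ 2 at h3
      rw [h4] at h3
      exact pow_eq_zero_iff (two_ne_zero) |>.1 (by rw [h3]; rfl)
    obtain ⟨y, hy, hyx⟩ := h2
    have h3 : y = x := Subtype.ext hyx
    rw [h3] at hy
    exact hy
  -- signs
  choose u hu huu hue using hun G' hG'
  have hsgn : ∀ e, ∃ η : ℤˣ, (η : ℤ) = (ψ ⟨u (σ e), hu _⟩ : E → ℤ) e * u (σ e) (σ e) := by
    intro e
    have h1 := hsqr ⟨u (σ e), hu _⟩ (huu _) e
    have h2 : u (σ e) (σ e) ^ 2 = 1 := by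
      rcases huu (σ e) (σ e) with h | h | h
      · exact absurd h (hue _)
      · rw [h]; rfl
      · rw [h]; rfl
    have h3 : ((ψ ⟨u (σ e), hu _⟩ : E → ℤ) e * u (σ e) (σ e)) ^ 2 = 1 := by
      rw [mul_pow, h1]
      change u (σ e) (σ e) ^ 2 * u (σ e) (σ e) ^ 2 = 1
      rw [h2]; rfl
    rw [sq] at h3
    rcases mul_self_eq_one_iff.1 h3 with h | h
    · exact ⟨1, by rw [h]; rfl⟩
    · exact ⟨-1, by rw [h]; rfl⟩
  choose η hη using hsgn
  refine ⟨σ, η, fun x e => ?_⟩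
  have h2 : u (σ e) (σ e) ^ 2 = 1 := by
    rcases huu (σ e) (σ e) with h | h | h
    · exact absurd h (hue _)
    · rw [h]; rfl
    · rw [h]; rfl
  let c : ℤ := (x : E' → ℤ) (σ e) * u (σ e) (σ e)
  have h3 := hzero (x - c • ⟨u (σ e), hu _⟩) e (by
    change (x : E' → ℤ) (σ e) - c * u (σ e) (σ e) = 0
    simp only [c]
    rw [mul_assoc, ← sq, h2]
    ring)
  rw [map_sub, map_smul] at h3
  change (ψ x : E → ℤ) e - c * (ψ ⟨u (σ e), hu _⟩ : E → ℤ) e = 0 at h3
  rw [hη]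
  simp only [c] at h3
  linarith

end Multigraph

end Pool.Agent.H762.TG
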